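import Pool.Agent.AKY.Def
import Mathlib

set_option autoImplicit false

/-!
# One root, four free points: the multipliers of a certificate and the rows, as functions of codes

* pair code `pc p q = (col p * 8 + col q) * 8 + st v p q` for `p < q`;
* face code `fc p q r = ((col p * 8 + col q) * 8 + col r) * 4096 + code v p q r` for `p < q < r`;
* quarter `qd p x`: `0` if `x` is ahead of `p`, `1` if behind, `2` otherwise.

Changes with respect to `AKV.Ct`: brackets at the level `kn / kd`, classes of triples (`nt`, `tch`,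
`TD`, `THi`, `tu`), no products.
-/

namespace Pool.Agent.AKY

/-- the integers of a certificate: all multipliers are functions of codes -/
structure Ml where
  /-- common denominator of the masses -/
  D : Nat
  /-- masses times `D` (of a colour) -/
  Lo : Nat → Nat
  Hi : Nat → Nat
  /-- mass rows: face code, colour -/
  lo : Nat → Nat → Nat
  hi : Nat → Nat → Nat
  /-- window rows: face code, point `0, 1, 2` of the face -/
  fw : Nat → Nat → Nat
  bw : Nat → Nat → Nat
  fu : Nat → Nat → Nat
  bu : Nat → Nat → Nat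
  /-- degree rows: pair code -/
  dv : Nat → Nat
  di : Nat → Nat
  dj : Nat → Nat
  /-- lower degree rows: pair code; the degrees are at least `DLo / DL` -/
  lv : Nat → Nat
  li : Nat → Nat
  lj : Nat → Nat
  DL : Nat
  DLo : Nat
  /-- bracket rows: pair code; face code, position of the extra point -/
  muf : Nat → Nat
  nuf : Nat → Nat → Nat
  mub : Nat → Nat
  nub : Nat → Nat → Nat
  /-- the level of the brackets is `kn / kd` -/
  kn : Nat
  kd : Nat
  /-- rows of the points of colour `4`: face code, position; bound `E0 / ED` -/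
  rr : Nat → Nat → Nat
  E0 : Nat
  ED : Nat
  /-- classes of pairs: their number, indicator (class, pair code), denominator and bounds of the
  densities, multipliers (pair code, class) -/
  nc : Nat
  ch : Nat → Nat → Nat
  PD : Nat
  PLo : Nat → Nat
  PHi : Nat → Nat
  pl : Nat → Nat → Nat
  ph : Nat → Nat → Nat
  /-- classes of triples: their number, indicator (class, face code), denominator and upper bounds
  of the densities, multipliers (class, colour of the leading point) -/
  nt : Nat
  tch : Nat → Nat → Nat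
  TD : Nat
  THi : Nat → Nat
  tu : Nat → Nat → Nat
  /-- scale -/
  K : Nat
  /-- the bound: a function of the four colours, `Ga - og` -/
  Ga : Nat → Nat → Nat → Nat → Nat
  og : Nat

variable (C : Ml)

/-- indicator -/
def ind (P : Prop) [Decidable P] : ℤ := if P then 1 else 0

/-- rows of a face `f` and a point of colour `c` in the quarters `q0, q1, q2` of the points of the
face -/
def Ml.r3 (f c q0 q1 q2 : Nat) : ℤ :=
  (∑ k ∈ Finset.range 5, ((C.lo f k : ℤ) * (C.D * ind (c = k) - C.Lo k) +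
    (C.hi f k : ℤ) * (C.Hi k - C.D * ind (c = k)))) +
  ((C.fw f 0 : ℤ) * (ind (q0 = 0) - ind (c = 0)) + (C.fw f 1 : ℤ) * (ind (q1 = 0) - ind (c = 0)) +
    (C.fw f 2 : ℤ) * (ind (q2 = 0) - ind (c = 0))) +
  ((C.bw f 0 : ℤ) * (ind (q0 = 1) - ind (c = 0)) + (C.bw f 1 : ℤ) * (ind (q1 = 1) - ind (c = 0)) +
    (C.bw f 2 : ℤ) * (ind (q2 = 1) - ind (c = 0))) +
  ((C.fu f 0 : ℤ) * (1 - 3 * ind (c = 0) - ind (q0 = 0)) +
    (C.fu f 1 : ℤ) * (1 - 3 * ind (c = 0) - ind (q1 = 0)) +
    (C.fu f 2 : ℤ) * (1 - 3 * ind (c = 0) - ind (q2 = 0))) +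
  ((C.bu f 0 : ℤ) * (1 - 3 * ind (c = 0) - ind (q0 = 1)) +
    (C.bu f 1 : ℤ) * (1 - 3 * ind (c = 0) - ind (q1 = 1)) +
    (C.bu f 2 : ℤ) * (1 - 3 * ind (c = 0) - ind (q2 = 1)))

/-- rows of the densities of the classes of triples: a leading point of colour `c`, a face `f` -/
def Ml.tr (f c : Nat) : ℤ :=
  ∑ j ∈ Finset.range C.nt, (C.tu j c : ℤ) * (C.THi j - C.TD * C.tch j f)

/-- a configuration: points are linearly ordered, `pc`, `fc` are used for increasing arguments -/
structure Cfg (κ : Type) [LinearOrder κ] where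
  col : κ → Nat
  qd : κ → κ → Nat
  pc : κ → κ → Nat
  fc : κ → κ → κ → Nat

variable {κ : Type} [LinearOrder κ] (G : Cfg κ)

/-- face code of `i < j` and a further point -/
def Cfg.f3 (i j x : κ) : Nat :=
  if x < i then G.fc x i j else if x < j then G.fc i x j else G.fc i j x

/-- position of the further point -/
def psn (i j x : κ) : Nat := if x < i then 0 else if x < j then 1 else 2

/-- state of a free triple `i, r, t` with `r < t` -/
def Cfg.nt (i r t : κ) : Nat := na (G.f3 r t i)

/-- `x < q` are of colours `0, 4` and acute with the root -/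
def Cfg.e4 (q x : κ) : ℤ := ind (x < q ∧ c04 (G.pc x q) = true)

/-- rows with three leading points `p, q, r` -/
def A3 (p q r x : κ) : ℤ :=
  C.r3 (G.fc p q r) (G.col x) (G.qd p x) (G.qd q x) (G.qd r x) +
  ((C.rr (G.fc p q r) 0 : ℤ) * (C.E0 - C.ED * G.e4 p x) +
    (C.rr (G.fc p q r) 1 : ℤ) * (C.E0 - C.ED * G.e4 q x) +
    (C.rr (G.fc p q r) 2 : ℤ) * (C.E0 - C.ED * G.e4 r x))

/-- rows with one leading point `x` -/
def A1 (p q r x : κ) : ℤ := C.tr (G.fc p q r) (G.col x)

/-- bracket rows: pair code `e`, face code `f`, position `k` of the extra point `r`, quarter `q` of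
the other point seen from `r` -/
def Ml.bf (e f k q : Nat) : ℤ :=
  (C.kn : ℤ) ^ 2 * C.muf e - C.nuf f k * (2 * C.kn * C.kd - 2 * C.kd ^ 2 * ind (q = 0))

def Ml.bb (e f k q : Nat) : ℤ :=
  (C.kn : ℤ) ^ 2 * C.mub e - C.nub f k * (2 * C.kn * C.kd - 2 * C.kd ^ 2 * ind (q = 1))

/-- rows of the densities of the classes of pairs: pair codes `e` of the leading pair, `e'` of the
other pair -/
def Ml.cr (e e' : Nat) : ℤ :=
  ∑ c ∈ Finset.range C.nc, ((C.pl e c : ℤ) * (C.PD * C.ch c e' - C.PLo c) +
    (C.ph e c : ℤ) * (C.PHi c - C.PD * C.ch c e'))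

/-- rows with two leading points `i < j` and a pair `r < t` -/
def A2 (i j r t : κ) : ℤ :=
  (2 * (C.dv (G.pc i j) : ℤ) * (4 - 9 * na (G.pc r t)) +
    2 * (C.di (G.pc i j) : ℤ) * (4 - 9 * G.nt i r t) +
    2 * (C.dj (G.pc i j) : ℤ) * (4 - 9 * G.nt j r t)) +
  (2 * (C.lv (G.pc i j) : ℤ) * (C.DL * na (G.pc r t) - C.DLo) +
    2 * (C.li (G.pc i j) : ℤ) * (C.DL * G.nt i r t - C.DLo) +
    2 * (C.lj (G.pc i j) : ℤ) * (C.DL * G.nt j r t - C.DLo)) +
  C.cr (G.pc i j) (G.pc r t) +
  (C.bf (G.pc i j) (G.f3 i j r) (psn i j r) (G.qd r t) +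
    C.bf (G.pc i j) (G.f3 i j t) (psn i j t) (G.qd t r)) +
  (C.bb (G.pc i j) (G.f3 i j r) (psn i j r) (G.qd r t) +
    C.bb (G.pc i j) (G.f3 i j t) (psn i j t) (G.qd t r))

/-- the bound at four points -/
def Ga4 (p q r s : κ) : ℤ := (C.Ga (G.col p) (G.col q) (G.col r) (G.col s) : ℤ) - C.og

/-- objective minus bound minus rows at `p < q < r < s` -/
def V4 (p q r s : κ) : ℤ :=
  (C.K : ℤ) * (na (G.fc p q r) + na (G.fc p q s) + na (G.fc p r s) + na (G.fc q r s)) -
    Ga4 C G p q r s -
    ((A3 C G p q r s + A3 C G p q s r + A3 C G p r s q + A3 C G q r s p) +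
      (A1 C G p q r s + A1 C G p q s r + A1 C G p r s q + A1 C G q r s p) +
      (A2 C G p q r s + A2 C G p r q s + A2 C G p s q r + A2 C G q r p s + A2 C G q s p r +
        A2 C G r s p q))

/-- the hypotheses on a configuration; `vf` = possible face codes, `tab` = possible states of four
free points -/
structure Cfg.Ok (vf : Nat → Bool) (tab : Nat) : Prop where
  vf : ∀ p q r, p < q → q < r → vf (G.fc p q r) = true
  pa : ∀ p q r, p < q → q < r → pa (G.fc p q r) = G.pc p q
  pb : ∀ p q r, p < q → q < r → pb (G.fc p q r) = G.pc p r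
  pc : ∀ p q r, p < q → q < r → pc' (G.fc p q r) = G.pc q r
  col1 : ∀ p q, p < q → G.pc p q / 64 = G.col p
  col2 : ∀ p q, p < q → G.pc p q / 8 % 8 = G.col q
  qf : ∀ p q, p < q → qf (G.pc p q % 8) = G.qd p q
  qb : ∀ p q, p < q → qb (G.pc p q % 8) = G.qd q p
  tab : ∀ p q r s, p < q → q < r → r < s →
    tab.testBit (512 * (G.fc p q r % 8) + 64 * (G.fc p q s % 8) + 8 * (G.fc p r s % 8) +
      G.fc q r s % 8) = true

end Pool.Agent.AKY
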