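import Pool.Agent.AKY.Vec
import Pool.Agent.AKY.Ct

set_option autoImplicit false

/-!
# The tables
-/

namespace Pool.Agent.AKY

open Finset

/-! ### static facts -/

theorem nb_iff (a b : Nat) : (Nat.beq a b = true) ↔ a = b := by rw [Nat.beq_eq]

theorem fnd_mem {l : List Gp} {c : Nat} (h : memG l c = true) :
    fnd l c ∈ l ∧ (fnd l c).c = c := by
  induction l with
  | nil => simp [memG] at h
  | cons x l ih =>
    have e : memG (x :: l) c =
        Bool.rec (motive := fun _ => Bool) (memG l c) true (Nat.beq x.c c) := rfl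
    have e2 : fnd (x :: l) c =
        Bool.rec (motive := fun _ => Gp) (fnd l c) x (Nat.beq x.c c) := rfl
    rw [e] at h
    rw [e2]
    cases hb : Nat.beq x.c c
    · rw [hb] at h
      obtain ⟨h1, h2⟩ := ih h
      exact ⟨List.mem_cons_of_mem _ h1, h2⟩
    · exact ⟨List.mem_cons_self, Nat.eq_of_beq_eq_true hb⟩

theorem eqL_iff {l m : List Nat} (h : eqL l m = true) : l = m := by
  induction l generalizing m with
  | nil =>
    cases m with
    | nil => rfl
    | cons y m => exact absurd h (by simp [eqL])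
  | cons x l ih =>
    cases m with
    | nil => exact absurd h (by simp [eqL])
    | cons y m =>
      have e : eqL (x :: l) (y :: m) = (Nat.beq x y && eqL l m) := rfl
      rw [e, Bool.and_eq_true] at h
      rw [Nat.eq_of_beq_eq_true h.1, ih h.2]

theorem eqG_iff {g h : Gp} (e : eqG g h = true) : g = h := by
  cases g
  cases h
  simp only [eqG, Bool.and_eq_true, Nat.beq_eq] at e
  obtain ⟨⟨⟨h1, h2, h3⟩, h4, h5, h6⟩, ⟨h7, h8, h9⟩, h10⟩ := e
  rw [Gp.mk.injEq]
  exact ⟨h1, h2, h3, h4, h5, h6, h7, h8, h9, eqL_iff h10⟩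

theorem memH_iff {l : List Gp} {g : Gp} (h : memH l g = true) : g ∈ l := by
  induction l with
  | nil => simp [memH] at h
  | cons x l ih =>
    have e : memH (x :: l) g =
        Bool.rec (motive := fun _ => Bool) (memH l g) true (eqG x g) := rfl
    rw [e] at h
    cases hb : eqG x g
    · rw [hb] at h
      exact List.mem_cons_of_mem _ (ih h)
    · rw [eqG_iff hb]
      exact List.mem_cons_self

theorem len_eq (l : List Nat) : len l = l.length := by
  unfold len
  rw [sumF_eq]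
  induction l with
  | nil => rfl
  | cons x l ih => rw [List.map_cons, List.sum_cons, ih, List.length_cons, add_comm]

section

variable {S : Sd}

/-- static facts about a pair code -/
structure SP (S : Sd) (k : Nat) : Prop where
  e : S.ix k < S.np
  kk : nth 0 S.pk (S.ix k) = k
  c1 : lb S.c1 (S.ix k) = k / 64
  c2 : lb S.c2 (S.ix k) = k / 8 % 8
  c1' : k / 64 < 5
  c2' : k / 8 % 8 < 5
  q1 : lb S.q1 (S.ix k) = qf (k % 8)
  nn : lb S.nn (S.ix k) = na (k % 8)
  q2 : lb S.q2 (S.ix k) = if c04 k then 3 else qb (k % 8)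
  q0 : c04 k = true → qb (k % 8) = 0

theorem stP_iff {k : Nat} (h : stP S k = true) : SP S k := by
  simp only [stP, Bool.and_eq_true, Nat.beq_eq, Nat.ble_eq] at h
  obtain ⟨⟨⟨h1, h2⟩, h3, h4⟩, ⟨⟨h5, h6⟩, h7, h8⟩, h9⟩ := h
  have h9' : lb S.q2 (S.ix k) = (if c04 k then 3 else qb (k % 8)) ∧
      (c04 k = true → qb (k % 8) = 0) := by
    cases hc : c04 k
    · rw [hc] at h9
      simp only at h9
      rw [Nat.beq_eq] at h9
      exact ⟨by simpa using h9, by simp⟩
    · rw [hc] at h9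
      simp only [Bool.and_eq_true, Nat.beq_eq] at h9
      exact ⟨by simpa using h9.1, fun _ => h9.2⟩
  exact ⟨h1, h2, h3, h4, by omega, by omega, h7, h8, h9'.1, h9'.2⟩

/-- static facts about a group -/
structure SG (g : Gp) : Prop where
  k : g.k ≤ 4
  t : g.k = g.t.length
  n : ∀ j, lq g.n j ≤ 1
  n4 : g.n < 2 ^ (48 * 4)

theorem lq_le_of {P n m : Nat} (h1 : Nat.ble (Nat.succ P) (Nat.pow 2 (Nat.mul 48 n)) = true)
    (h2 : (allN n fun j => Nat.ble (lq P j) m) = true) (j : Nat) : lq P j ≤ m := by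
  rw [Nat.ble_eq] at h1
  have h3 : P < 2 ^ (48 * n) := h1
  by_cases hj : j < n
  · have := allN_iff.1 h2 j hj
    rwa [Nat.ble_eq] at this
  · rw [lq_big h3 (by omega)]
    exact Nat.zero_le _

theorem stG_iff {g : Gp} (h : stG g = true) : SG g := by
  simp only [stG, Bool.and_eq_true, Nat.beq_eq] at h
  obtain ⟨⟨h1, h2⟩, h3, h4⟩ := h
  have h3' : Nat.ble (Nat.succ g.n) (Nat.pow 2 (Nat.mul 48 4)) = true := h3
  refine ⟨by rwa [Nat.ble_eq] at h1, by rw [h2, len_eq], fun j => lq_le_of h3' h4 j, ?_⟩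
  rw [Nat.ble_eq] at h3'
  exact h3'

/-- static facts about a face code -/
structure SF (S : Sd) (f : Nat) : Prop where
  pa : SP S (pa f)
  pb : SP S (pb f)
  pc : SP S (pc' f)
  gl : S.grp f ∈ S.gl (S.ix (AKY.pa f)) (S.ix (AKY.pb f))
  ga : S.grp f ∈ S.ga (S.ix (AKY.pa f))
  a : (S.grp f).a = S.ix (AKY.pa f)
  b : (S.grp f).b = S.ix (AKY.pb f)
  c : (S.grp f).c = S.ix (pc' f)
  t : nth 0 (S.grp f).t (S.st f) = f % 8
  s : S.st f < (S.grp f).k
  n : lq (S.grp f).n (S.st f) = na (f % 8)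
  code : S.code (S.grp f) (f % 8) = f
  g : SG (S.grp f)

theorem ga_mem {S : Sd} {e : Nat} {g : Gp} (h : g ∈ S.ga e) : ∃ l ∈ S.GA, g ∈ l := by
  unfold Sd.ga at h
  rcases nth_mem [] S.GA e with h1 | h1
  · rw [h1] at h
    simp at h
  · exact ⟨_, h1, h⟩

theorem okS_iff (h : okS S = true) {f : Nat} (hf : f ∈ S.FL) : SF S f := by
  simp only [okS, Bool.and_eq_true, allF_iff] at h
  obtain ⟨h1, h2⟩ := h
  have h3 := h1 f hf
  simp only [stF, Bool.and_eq_true, Nat.beq_eq, Nat.ble_eq] at h3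
  obtain ⟨⟨⟨p1, p2, p3⟩, m1, m2⟩, ⟨⟨a1, a2⟩, a3, a4⟩, a5, a6⟩ := h3
  have h4 := fnd_mem m1
  have h5 := memH_iff m2
  obtain ⟨l, hl, hg⟩ := ga_mem h5
  exact ⟨stP_iff p1, stP_iff p2, stP_iff p3, h4.1, h5, a1, a2, h4.2, a3, a4, a5, a6,
    stG_iff (h2 l hl _ hg)⟩

end

/-! ### the multipliers -/

section

variable (S : Sd) (C : Cl)

/-- multipliers of a face code -/
noncomputable def uf (f : Nat) : Nat := C.u (S.grp f) (S.st f)

noncomputable def ml : Ml where
  D := C.D
  Lo k := lq C.Lo k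
  Hi k := lq C.Hi k
  lo f k := lq (uf S C f) k
  hi f k := lq (uf S C f) (k + 5)
  fw f k := lq (uf S C f) (k + 10)
  bw f k := lq (uf S C f) (k + 13)
  fu f k := lq (uf S C f) (k + 16)
  bu f k := lq (uf S C f) (k + 19)
  dv k := lq (C.pq (S.ix k)) 0
  di k := lq (C.pq (S.ix k)) 1
  dj k := lq (C.pq (S.ix k)) 2
  lv k := lq (C.pq (S.ix k)) 3
  li k := lq (C.pq (S.ix k)) 4
  lj k := lq (C.pq (S.ix k)) 5
  DL := C.DL
  DLo := C.DLo
  muf k := lq C.mf (S.ix k)
  nuf f k := lq (uf S C f) (k + 22)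
  mub k := lq C.mb (S.ix k)
  nub f k := lq (uf S C f) (k + 25)
  kn := C.kn
  kd := C.kd
  rr f k := lq (uf S C f) (k + 28)
  E0 := C.E0
  ED := C.ED
  nc := C.nc
  ch c k := cb (lb C.x (S.ix k)) c
  PD := C.PD
  PLo c := lq C.PLo c
  PHi c := lq C.PHi c
  pl k c := lq (C.pq (S.ix k)) (c + 6)
  ph k c := lq (C.pq (S.ix k)) (c + C.nc + 6)
  nt := C.nt
  tch j f := tch C.TC j f
  TD := C.TD
  THi j := lq C.THi j
  tu j c := lq C.tu (5 * j + c)
  K := C.K
  Ga a b c d := lq C.ga (gi a b c d)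
  og := C.og

variable {S C}

theorem s3_eq (u k : Nat) : (s3 u k : ℤ) = lq u k + (lq u (k + 1) + lq u (k + 2)) := by
  unfold s3
  simp only [nadd]
  push_cast
  rfl

theorem i01_eq (b : Bool) (v : Nat) : i01 b v = if b = true then v else 0 := by
  cases b <;> rfl

theorem q03_iff (q : Nat) : (q03 q = true) ↔ (q = 0 ∨ q = 3) := by
  unfold q03
  cases h : Nat.beq q 0
  · simp only
    rw [Nat.beq_eq]
    have h0 : q ≠ 0 := fun e => by rw [e] at h; simp at h
    tauto
  · simp only [true_iff]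
    left
    exact Nat.eq_of_beq_eq_true h

theorem okM_eq {f c s n T : Nat} (hc : c < 5) (h : okM C f (uf S C f) T s n c = true) :
    (lq T (4 * c + s) : ℤ) = C.om + 3 * C.oh * n +
      (∑ k ∈ range 5, (((ml S C).lo f k : ℤ) * (C.D * ind (c = k) - (ml S C).Lo k) +
        ((ml S C).hi f k : ℤ) * ((ml S C).Hi k - C.D * ind (c = k)))) -
      ind (c = 0) * (((ml S C).fw f 0 + (ml S C).fw f 1 + (ml S C).fw f 2) +
        ((ml S C).bw f 0 + (ml S C).bw f 1 + (ml S C).bw f 2)) +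
      (1 - 3 * ind (c = 0)) * (((ml S C).fu f 0 + (ml S C).fu f 1 + (ml S C).fu f 2) +
        ((ml S C).bu f 0 + (ml S C).bu f 1 + (ml S C).bu f 2)) + (ml S C).tr f c := by
  have h1 := Nat.eq_of_beq_eq_true h
  simp only [sumN_eq, i01_eq, nb_iff, nadd, nmul, rN, rP] at h1
  have h2 := congrArg (Nat.cast : ℕ → ℤ) h1
  push_cast at h2
  rw [s3_eq, s3_eq, s3_eq, s3_eq] at h2
  have h3 : (ml S C).tr f c = (∑ j ∈ range C.nt, (lq C.tu (5 * j + c) : ℤ) * lq C.THi j) -
      ∑ j ∈ range C.nt, (lq C.tu (5 * j + c) : ℤ) * (C.TD * tch C.TC j f) := by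
    rw [← sum_sub_distrib]
    unfold Ml.tr
    exact sum_congr rfl fun j _ => by simp only [ml]; ring
  rw [h3]
  simp only [ml, ind, sum_range_succ, sum_range_zero] at h2 ⊢
  rcases (by omega : c = 0 ∨ c = 1 ∨ c = 2 ∨ c = 3 ∨ c = 4) with rfl | rfl | rfl | rfl | rfl <;>
    norm_num at h2 ⊢ <;> linarith

/-- the real quarter of an extended quarter -/
def rq (q : Nat) : Nat := if q = 3 then 0 else q

theorem okW_eq {u T s j e q : Nat} (h : okW C u T s j e q = true) :
    (lq T (20 + 16 * j + (4 * q + s)) : ℤ) = C.ow +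
      (lq u (j + 28) : ℤ) * (C.E0 - C.ED * ind (q = 3)) +
      ((C.kn : ℤ) ^ 2 * lq C.mf e -
        lq u (j + 22) * (2 * C.kn * C.kd - 2 * C.kd ^ 2 * ind (rq q = 0))) +
      ((C.kn : ℤ) ^ 2 * lq C.mb e -
        lq u (j + 25) * (2 * C.kn * C.kd - 2 * C.kd ^ 2 * ind (rq q = 1))) +
      ind (rq q = 0) * (lq u (j + 10) - lq u (j + 16)) +
      ind (rq q = 1) * (lq u (j + 13) - lq u (j + 19)) := by
  have h1 := Nat.eq_of_beq_eq_true h
  simp only [i01_eq, nb_iff, q03_iff, nadd, nmul] at h1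
  have h2 := congrArg (Nat.cast : ℕ → ℤ) h1
  push_cast at h2
  unfold rq
  by_cases q0 : q = 0
  · subst q0
    simp [ind] at h2 ⊢
    linarith
  · by_cases q1 : q = 1
    · subst q1
      simp [ind] at h2 ⊢
      linarith
    · by_cases q3 : q = 3
      · subst q3
        simp [ind] at h2 ⊢
        linarith
      · simp [ind, q0, q1, q3] at h2 ⊢
        linarith

/-- the facts about the tables of a face code -/
structure FX (S : Sd) (C : Cl) (f : Nat) : Prop where
  m : ∀ c < 5, okM C f (uf S C f) (C.tb (S.grp f)) (S.st f) (na (f % 8)) c = true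
  w0 : ∀ q < 4, okW C (uf S C f) (C.tb (S.grp f)) (S.st f) 0 (S.ix (pc' f)) q = true
  w1 : ∀ q < 4, okW C (uf S C f) (C.tb (S.grp f)) (S.st f) 1 (S.ix (pb f)) q = true
  w2 : ∀ q < 4, okW C (uf S C f) (C.tb (S.grp f)) (S.st f) 2 (S.ix (pa f)) q = true
  nf0 : lq (uf S C f) 22 ≤ lq C.mf (S.ix (pc' f))
  nf1 : lq (uf S C f) 23 ≤ lq C.mf (S.ix (pb f))
  nf2 : lq (uf S C f) 24 ≤ lq C.mf (S.ix (pa f))
  nb0 : lq (uf S C f) 25 ≤ lq C.mb (S.ix (pc' f))
  nb1 : lq (uf S C f) 26 ≤ lq C.mb (S.ix (pb f))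
  nb2 : lq (uf S C f) 27 ≤ lq C.mb (S.ix (pa f))
  z0 : lq (uf S C f) 28 = 0 ∨ pa f / 64 = 4
  z1 : lq (uf S C f) 29 = 0 ∨ pa f / 8 % 8 = 4
  z2 : lq (uf S C f) 30 = 0 ∨ pb f / 8 % 8 = 4
  T : ∀ j, lq (C.tb (S.grp f)) j < 2 ^ 42

theorem z4_iff {v c : Nat} (h : z4 v c = true) : v = 0 ∨ c = 4 := by
  simp only [z4, Bool.or_eq_true, Nat.beq_eq] at h
  exact h

theorem ok2_iff (h : ok2 S C = true) {f : Nat} (hf : SF S f) : FX S C f := by
  simp only [ok2, allF_iff] at h
  obtain ⟨l, hl, hg⟩ := ga_mem hf.ga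
  have h1 := h l hl _ hg
  simp only [okG, Bool.and_eq_true] at h1
  obtain ⟨⟨h2, h3⟩, h4⟩ := h1
  have h5 := allN_iff.1 h4 _ hf.s
  rw [hf.t, hf.code, hf.n, show C.u (S.grp f) (S.st f) = uf S C f from rfl] at h5
  simp only [okU, Bool.and_eq_true, Nat.ble_eq] at h5
  obtain ⟨⟨m, z0, z1, z2⟩, w, ⟨n1, n2, n3⟩, n4, n5, n6⟩ := h5
  rw [hf.a] at z0 z1 n3 n6
  rw [hf.b] at z2 n2 n5
  rw [hf.c] at n1 n4
  have w' : ∀ q < 4, okW C (uf S C f) (C.tb (S.grp f)) (S.st f) 0 (S.ix (pc' f)) q = true ∧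
      okW C (uf S C f) (C.tb (S.grp f)) (S.st f) 1 (S.ix (pb f)) q = true ∧
      okW C (uf S C f) (C.tb (S.grp f)) (S.st f) 2 (S.ix (pa f)) q = true := by
    intro q hq
    have := allN_iff.1 w q hq
    rw [Bool.and_eq_true, Bool.and_eq_true, hf.a, hf.b, hf.c] at this
    exact this
  have z0' := z4_iff z0
  have z1' := z4_iff z1
  have z2' := z4_iff z2
  rw [hf.pa.c1] at z0'
  rw [hf.pa.c2] at z1'
  rw [hf.pb.c2] at z2'
  exact ⟨fun c hc => allN_iff.1 m c hc, fun q hq => (w' q hq).1, fun q hq => (w' q hq).2.1,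
    fun q hq => (w' q hq).2.2, n1, n2, n3, n4, n5, n6, z0', z1', z2',
    fun j => lt_of_le_of_lt (lq_le_of h3 h2 j) (by norm_num)⟩

/-- the rows of the points of a face which depend on the extended quarter `q` of the fourth point -/
noncomputable def br (C : Ml) (f k e q : Nat) : ℤ :=
  (C.rr f k : ℤ) * (C.E0 - C.ED * ind (q = 3)) + (C.bf e f k (rq q) + C.bb e f k (rq q))

/-- the table of a face -/
theorem tvd_eq {f : Nat} (hf : FX S C f) {c a b d : Nat} (hc : c < 5)
    (ha : a < 4) (hb : b < 4) (hd : d < 4) :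
    (tvd (C.tb (S.grp f)) c a b d (S.st f) : ℤ) =
      C.om + 3 * C.ow + 3 * C.oh * na (f % 8) + (ml S C).r3 f c (rq a) (rq b) (rq d) +
      (ml S C).tr f c + (br (ml S C) f 0 (pc' f) a + br (ml S C) f 1 (pb f) b +
        br (ml S C) f 2 (pa f) d) := by
  have hm := okM_eq hc (hf.m c hc)
  have w1 := okW_eq (hf.w0 a ha)
  have w2 := okW_eq (hf.w1 b hb)
  have w3 := okW_eq (hf.w2 d hd)
  unfold tvd
  rw [show 20 + 4 * a + S.st f = 20 + 16 * 0 + (4 * a + S.st f) by ring,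
    show 36 + 4 * b + S.st f = 20 + 16 * 1 + (4 * b + S.st f) by ring,
    show 52 + 4 * d + S.st f = 20 + 16 * 2 + (4 * d + S.st f) by ring]
  push_cast
  rw [hm, w1, w2, w3]
  unfold Ml.r3 br Ml.bf Ml.bb
  simp only [ml]
  ring

/-! ### pairs of pairs -/

/-- the rows of a pair of pairs -/
noncomputable def zr (S : Sd) (C : Cl) (k k' : Nat) : ℤ :=
  (8 * (((ml S C).dv k : ℤ) + (ml S C).di k + (ml S C).dj k) - 18 * (((ml S C).dv k : ℤ) * na k')) +
    (2 * C.DL * (((ml S C).lv k : ℤ) * na k') -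
      2 * C.DLo * (((ml S C).lv k : ℤ) + (ml S C).li k + (ml S C).lj k)) +
    (ml S C).cr k k'

theorem na8 (k : Nat) : na (k % 8) = na k := by
  unfold na
  rw [show k % 8 % 4 = k % 4 by omega]

theorem zr_eq {k k' : Nat} (h' : SP S k') :
    zr S C k k' = (tP S C (S.ix k) (S.ix k') : ℤ) - tN S C (S.ix k) (S.ix k') := by
  unfold zr tP tN
  simp only [nadd, nmul, sumN_eq]
  push_cast
  rw [s3_eq, s3_eq, h'.nn, na8]
  unfold Ml.cr
  have e : ∑ c ∈ range (ml S C).nc, (((ml S C).pl k c : ℤ) * ((ml S C).PD * (ml S C).ch c k' -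
      (ml S C).PLo c) + ((ml S C).ph k c : ℤ) * ((ml S C).PHi c - (ml S C).PD * (ml S C).ch c k')) =
      (∑ c ∈ range C.nc, ((lq (C.pq (S.ix k)) (c + 6) : ℤ) * C.PD * cb (lb C.x (S.ix k')) c +
        (lq (C.pq (S.ix k)) (c + C.nc + 6) : ℤ) * lq C.PHi c)) -
      ∑ c ∈ range C.nc, ((lq (C.pq (S.ix k)) (c + 6) : ℤ) * lq C.PLo c +
        (lq (C.pq (S.ix k)) (c + C.nc + 6) : ℤ) * C.PD * cb (lb C.x (S.ix k')) c) := by
    rw [← sum_sub_distrib]
    exact sum_congr rfl fun c _ => by simp only [ml]; ring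
  rw [e]
  simp only [ml]
  ring

/-- the facts about the tables of a pair -/
structure FP (S : Sd) (C : Cl) (e : Nat) : Prop where
  h : lq C.h e + 2 * C.DL * lq (C.pq e) 4 = C.oh + 18 * lq (C.pq e) 1
  g : lq C.g e + 2 * C.DL * lq (C.pq e) 5 = C.oh + 18 * lq (C.pq e) 2
  h' : lq C.h e ≤ 2 ^ 40
  g' : lq C.g e ≤ 2 ^ 40
  r' : ∀ j, lq (nth 0 C.r e) j < 2 ^ 42
  r : ∀ e' < S.np, lq (nth 0 C.r e) e' + ((tN S C e e' + tN S C e' e) +
    OV * (lq (ps C.Z) e + lq (ps C.Z) e')) = lq (rw C.Z e) e' + ((tP S C e e' + tP S C e' e) +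
    (C.oz + OV * OV * (len C.Z + (len (C.l e) + len (C.l e')))))

theorem ok1_iff (h : ok1 S C = true) {e : Nat} (he : e < S.np) : FP S C e := by
  simp only [ok1, Bool.and_eq_true] at h
  have h1 := allN_iff.1 h.2 e he
  simp only [okP, Bool.and_eq_true, Nat.beq_eq] at h1
  obtain ⟨⟨⟨h2, h3⟩, ⟨h4, h5⟩, h6⟩, h7⟩ := h1
  have h8 : ∀ e' < S.np, _ := fun e' he' => allN_iff.1 h7 e' he'
  refine ⟨h2, h3, by rw [Nat.ble_eq] at h4; exact h4, by rw [Nat.ble_eq] at h5; exact h5, ?_, ?_⟩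
  · intro j
    have h9 : (allN S.np fun j => Nat.ble (lq (nth 0 C.r e) j) 4398046511103) = true := by
      rw [allN_iff]
      intro j hj
      have := h8 j hj
      rw [Bool.and_eq_true] at this
      exact this.2
    exact lt_of_le_of_lt (lq_le_of h6 h9 j) (by norm_num)
  · intro e' he'
    have := h8 e' he'
    rw [Bool.and_eq_true] at this
    exact Nat.eq_of_beq_eq_true this.1

end

/-! ### the blocks -/

/-- entries of `l l^T` -/
def dot (cols : List Nat) (i j : Nat) : Nat := (cols.map fun c => lq c i * lq c j).sum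

/-- the columns are fine -/
structure LK (cols : List Nat) : Prop where
  n : cols.length ≤ 64
  d : ∀ c ∈ cols, ∀ j, lq c j < 2 ^ 18

theorem okL_iff {n : Nat} {cols : List Nat} (h : okL n cols = true) : LK cols := by
  unfold okL at h
  cases h1 : Nat.ble (len cols) 64
  · rw [h1] at h; simp at h
  · rw [h1] at h
    simp only at h
    rw [Nat.ble_eq, len_eq] at h1
    refine ⟨h1, fun c hc j => ?_⟩
    have h2 := allF_iff.1 h c hc
    cases h3 : Nat.ble (Nat.succ c) (Nat.pow 2 (Nat.mul 48 n))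
    · rw [h3] at h2; simp at h2
    · rw [h3] at h2
      exact lt_of_le_of_lt (lq_le_of h3 h2 j) (by norm_num)

theorem lq_rw_aux {cols : List Nat} (n : Nat) (hn : cols.length ≤ n) (h64 : n ≤ 64)
    (h : ∀ c ∈ cols, ∀ j, lq c j < 2 ^ 18) (i : Nat) :
    ∀ j, lq (rw cols i) j = dot cols i j ∧ dot cols i j ≤ cols.length * 2 ^ 36 := by
  induction cols with
  | nil =>
    intro j
    exact ⟨lq_zero j, by simp [dot]⟩
  | cons c l ih =>
    intro j
    have h1 := ih (by rw [List.length_cons] at hn; omega)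
      (fun c hc => h c (List.mem_cons_of_mem _ hc))
    have hc := h c List.mem_cons_self
    have e : rw (c :: l) i = lq c i * c + rw l i := rfl
    have e2 : ∀ j, dot (c :: l) i j = lq c i * lq c j + dot l i j := fun j => by
      unfold dot
      rw [List.map_cons, List.sum_cons]
    have e3 : ∀ j, lq c i * lq c j ≤ 2 ^ 36 := fun j => by
      have := Nat.mul_le_mul (hc i).le (hc j).le
      calc lq c i * lq c j ≤ 2 ^ 18 * 2 ^ 18 := this
        _ = 2 ^ 36 := by norm_num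
    have e4 : ∀ j, lq (lq c i * c) j = lq c i * lq c j := fun j =>
      lq_mul (fun j => lt_of_le_of_lt (e3 j) (by norm_num)) j
    have hl : l.length ≤ 63 := by rw [List.length_cons] at hn; omega
    have e5 : ∀ j, dot l i j ≤ 63 * 2 ^ 36 := fun j =>
      (h1 j).2.trans (Nat.mul_le_mul_right _ hl)
    rw [e, e2]
    constructor
    · rw [lq_add (fun j => ?_) j, e4, (h1 j).1]
      rw [e4, (h1 j).1]
      have := e3 j
      have := e5 j
      omega
    · rw [List.length_cons]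
      have := e3 j
      have := (h1 j).2
      rw [add_mul, one_mul]
      omega

theorem lq_rw {cols : List Nat} (h : LK cols) (i j : Nat) : lq (rw cols i) j = dot cols i j :=
  (lq_rw_aux 64 h.n le_rfl h.d i j).1

theorem dot_le {cols : List Nat} (h : LK cols) (i j : Nat) : dot cols i j ≤ 2 ^ 42 := by
  refine (lq_rw_aux 64 h.n le_rfl h.d i j).2.trans ?_
  calc cols.length * 2 ^ 36 ≤ 64 * 2 ^ 36 := Nat.mul_le_mul_right _ h.n
    _ = 2 ^ 42 := by norm_num

theorem lq_ps_aux {cols : List Nat} (n : Nat) (hn : cols.length ≤ n) (h64 : n ≤ 64)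
    (h : ∀ c ∈ cols, ∀ j, lq c j < 2 ^ 18) :
    ∀ j, lq (ps cols) j = (cols.map fun c => lq c j).sum ∧
      (cols.map fun c => lq c j).sum ≤ cols.length * 2 ^ 18 := by
  induction cols with
  | nil =>
    intro j
    exact ⟨lq_zero j, by simp⟩
  | cons c l ih =>
    intro j
    have h1 := ih (by rw [List.length_cons] at hn; omega)
      (fun c hc => h c (List.mem_cons_of_mem _ hc))
    have hc := h c List.mem_cons_self
    have e : ps (c :: l) = c + ps l := rfl
    have hl : l.length ≤ 63 := by rw [List.length_cons] at hn; omega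
    have e5 : ∀ j, (l.map fun c => lq c j).sum ≤ 63 * 2 ^ 18 := fun j =>
      (h1 j).2.trans (Nat.mul_le_mul_right _ hl)
    rw [e, List.map_cons, List.sum_cons]
    constructor
    · rw [lq_add (fun j => ?_) j, (h1 j).1]
      rw [(h1 j).1]
      have := hc j
      have := e5 j
      omega
    · rw [List.length_cons]
      have := hc j
      have := (h1 j).2
      rw [add_mul, one_mul]
      omega

theorem lq_ps {cols : List Nat} (h : LK cols) (j : Nat) :
    lq (ps cols) j = (cols.map fun c => lq c j).sum :=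
  (lq_ps_aux 64 h.n le_rfl h.d j).1

theorem ps_le {cols : List Nat} (h : LK cols) (j : Nat) : lq (ps cols) j ≤ 2 ^ 24 := by
  rw [lq_ps h]
  refine (lq_ps_aux 64 h.n le_rfl h.d j).2.trans ?_
  calc cols.length * 2 ^ 18 ≤ 64 * 2 ^ 18 := Nat.mul_le_mul_right _ h.n
    _ ≤ 2 ^ 24 := by norm_num

/-- entries of the block -/
def Qc (cols : List Nat) (i j : Nat) : ℤ :=
  (cols.map fun c => ((lq c i : ℤ) - OV) * ((lq c j : ℤ) - OV)).sum

theorem Qc_eq {cols : List Nat} (h : LK cols) (i j : Nat) :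
    (lq (rw cols i) j : ℤ) = Qc cols i j + OV * ((lq (ps cols) i : ℤ) + lq (ps cols) j) -
      (OV : ℤ) * OV * len cols := by
  rw [lq_rw h, lq_ps h, lq_ps h, len_eq]
  clear h
  unfold dot Qc
  induction cols with
  | nil => simp
  | cons c l ih =>
    simp only [List.map_cons, List.sum_cons, List.length_cons]
    push_cast at ih ⊢
    linarith

theorem Qc_sym (cols : List Nat) (i j : Nat) : Qc cols i j = Qc cols j i := by
  unfold Qc
  congr 1
  refine List.map_congr_left fun c _ => ?_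
  ring

theorem Qc_psd (cols : List Nat) {ι : Type} [Fintype ι] (f : ι → ℕ) :
    0 ≤ ∑ y, ∑ y', Qc cols (f y) (f y') := by
  unfold Qc
  induction cols with
  | nil => simp
  | cons c l ih =>
    simp only [List.map_cons, List.sum_cons, sum_add_distrib]
    have h1 : ∑ y, ∑ y', ((lq c (f y) : ℤ) - OV) * ((lq c (f y') : ℤ) - OV) =
        (∑ y, ((lq c (f y) : ℤ) - OV)) ^ 2 := by
      rw [sq, sum_mul_sum]
    rw [h1]
    have := sq_nonneg (∑ y, ((lq c (f y) : ℤ) - OV))
    linarith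

theorem Qc_abs (cols : List Nat) (i j : Nat) : |Qc cols i j| ≤ cols.length * 2 ^ 96 := by
  unfold Qc
  induction cols with
  | nil => simp
  | cons c l ih =>
    simp only [List.map_cons, List.sum_cons, List.length_cons]
    have h1 : ∀ k, |(lq c k : ℤ) - OV| ≤ 2 ^ 48 := by
      intro k
      have := lq_lt c k
      have h2 : (lq c k : ℤ) < 2 ^ 48 := by exact_mod_cast this
      have h3 : (0 : ℤ) ≤ lq c k := Int.natCast_nonneg _
      rw [abs_le]
      have h4 : (OV : ℤ) = 131072 := rfl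
      rw [h4]
      constructor <;> linarith
    have h2 : |((lq c i : ℤ) - OV) * ((lq c j : ℤ) - OV)| ≤ 2 ^ 96 := by
      rw [abs_mul]
      calc |(lq c i : ℤ) - OV| * |(lq c j : ℤ) - OV| ≤ 2 ^ 48 * 2 ^ 48 :=
            mul_le_mul (h1 i) (h1 j) (abs_nonneg _) (by norm_num)
        _ = 2 ^ 96 := by norm_num
    refine (abs_add_le _ _).trans ?_
    push_cast
    linarith

end Pool.Agent.AKY
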