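import Pool.Agent.AKY.Def

set_option autoImplicit false

namespace Pool.Agent.AKY

/-- the possible states of four free points (see `Pool.Agent.AKG.TAB`) -/
def TAB : Nat := 0x440d0004d088008000070000000b0000400444440000000040050044000900000000000070b0d0f000000000002220200000400000007000000000000030707070000000b0000000d0440050880d0009b040707000000000f0400070800000000000000022002020000000000b0702030000200000002200000000000200222200000000800888880000000008070b0bd0440050880d000900000000880d0909000080000000b00000002000000022008040f0d0000000000000b00000003000500000009008008800040000080f000bd044505000000000d0440040880d0008000000003000b0b0000000000002222200007000000030000000000000003020070b0d0f000000000022020200000000000007000000040000030707000000000d88000844d0004000b0000000700000000000000440444400900000045000442200020200000000b070203000000000000022000000020020002222000000000b0000000700000088d000900d440005000000000b040707080000000f04000700000b000000080000002200000002000000000008040f0d0000030000000b0008808888000000008070b0b00000000088d000900d44000588d090900000000003000b0b00000000002022220000000000000300000007000000030200000000098000880500000080f000b000400000000000000d44050588d000800d440004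

end Pool.Agent.AKY
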