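set_option autoImplicit false

/-!
# One root, four free points: the kernel check

The free points are linearly ordered.  Pair types have indices `0 .. np - 1`, the triple types
(faces) with the same three pair types form a group; the states of a group are its slots
`0, 1, 2, 3`.  A flag of a pair is a face containing it: first the faces in which the pair is first
and second point, then first and third, then second and third.  Numbers are packed with digits of 48
bits.  The check at four groups is made for all `4 ^ 4` choices of slots at once: the choice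
`(i, j, k, l)` is the digit `64 i + 16 j + 4 k + l`.
-/

namespace Pool.Agent.AKY

/-- the pair codes of a face code -/
def pa (f : Nat) : Nat := (f / 262144 % 8 * 8 + f / 32768 % 8) * 8 + f / 512 % 8

def pb (f : Nat) : Nat := (f / 262144 % 8 * 8 + f / 4096 % 8) * 8 + f / 64 % 8

def pc' (f : Nat) : Nat := (f / 32768 % 8 * 8 + f / 4096 % 8) * 8 + f / 8 % 8

/-- non-acute? -/
def na (t : Nat) : Nat := if t % 4 = 0 then 0 else 1

/-- quarter of the second point of a pair seen from the first: state `4` ccw acute is ahead, `0` cw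
acute is behind; the angle at the root is not acute iff `t % 4 = 1` -/
def qf (t : Nat) : Nat := if t % 4 = 1 then 2 else if 4 ≤ t then 0 else 1

/-- quarter of the first point of a pair seen from the second -/
def qb (t : Nat) : Nat := if t % 4 = 1 then 2 else if 4 ≤ t then 1 else 0

/-- pair code of colours `0, 4`, acute with the root -/
def c04 (e : Nat) : Bool := Nat.beq (e / 64) 0 && (Nat.beq (e / 8 % 8) 4 && Nat.beq (e % 4) 0)

/-! ### loops -/

noncomputable def allN (n : Nat) (g : Nat → Bool) : Bool :=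
  Nat.rec (motive := fun _ => Bool) true
    (fun k ih => Bool.rec (motive := fun _ => Bool) false ih (g k)) n

noncomputable def sumN (n : Nat) (g : Nat → Nat) : Nat :=
  Nat.rec (motive := fun _ => Nat) 0 (fun k ih => Nat.add ih (g k)) n

noncomputable def allF {α : Type} (l : List α) (g : α → Bool) : Bool :=
  List.rec (motive := fun _ => Bool) true
    (fun x _ ih => Bool.rec (motive := fun _ => Bool) false ih (g x)) l

noncomputable def sumF {α : Type} (l : List α) (g : α → Nat) : Nat :=
  List.rec (motive := fun _ => Nat) 0 (fun x _ ih => Nat.add (g x) ih) l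

/-- an element of a list -/
noncomputable def nth {α : Type} (d : α) (l : List α) (i : Nat) : α :=
  List.rec (motive := fun _ => Nat → α) (fun _ => d)
    (fun x _ ih i => Nat.rec (motive := fun _ => α) x (fun k _ => ih k) i) l i

/-! ### digits -/

/-- digit of 48 bits -/
def lq (P k : Nat) : Nat := Nat.mod (Nat.shiftRight P (Nat.mul 48 k)) 281474976710656

/-- four digits -/
def sl (P k : Nat) : Nat :=
  Nat.mod (Nat.shiftRight P (Nat.mul 48 k)) 6277101735386680763835789423207666416102355444464034512896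

/-- digit of 8 bits -/
def lb (P k : Nat) : Nat := Nat.mod (Nat.shiftRight P (Nat.mul 8 k)) 256

/-- `1 + x + x ^ 2 + x ^ 3` for `x = 2 ^ (48 s)` -/
def fl (s : Nat) : Nat :=
  Nat.add (Nat.add 1 (Nat.pow 2 (Nat.mul 48 s)))
    (Nat.add (Nat.pow 2 (Nat.mul 96 s)) (Nat.pow 2 (Nat.mul 144 s)))

/-- mask of four digits with distance `s` -/
def ms (s : Nat) : Nat := Nat.mul 281474976710655 (fl s)

/-- moves the four digits of `v` to the distance `s + 1` -/
def sp (s v : Nat) : Nat := Nat.land (Nat.mul v (fl s)) (ms (Nat.succ s))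

def f1 : Nat := fl 1

def f4 : Nat := fl 4

def f16 : Nat := fl 16

def f64 : Nat := fl 64

/-! ### static data -/

/-- a group of faces: pairs, first flags, index among the groups with the same first pair, packed
non-acute indicators, number of states, states -/
structure Gp where
  a : Nat
  b : Nat
  c : Nat
  x : Nat
  y : Nat
  z : Nat
  m : Nat
  n : Nat
  k : Nat
  t : List Nat

/-- static data: pair codes, index of a pair code (8 bits), colours of the two points, quarters,
non-acute indicator of the triple with the root, numbers of flags, groups by first pair, groups by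
first and second pair, face codes -/
structure Sd where
  np : Nat
  pk : List Nat
  IX : Nat
  c1 : Nat
  c2 : Nat
  q1 : Nat
  q2 : Nat
  nn : Nat
  nb : Nat
  GA : List (List Gp)
  GL : List (List (List Gp))
  FL : List Nat

/-- the data of a certificate: columns of the blocks, of the pair-pair block, tables of the groups,
multipliers of the faces (indexed by the flag over the first pair), of the pairs, classes of the
pairs, pair-pair table, tables of the pairs; offsets; constants -/
structure Cl where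
  L : List (List Nat)
  Z : List Nat
  TB : List (List Nat)
  U : List (List Nat)
  q : List Nat
  x : Nat
  r : List Nat
  h : Nat
  g : Nat
  mf : Nat
  mb : Nat
  oh : Nat
  om : Nat
  ow : Nat
  oz : Nat
  D : Nat
  Lo : Nat
  Hi : Nat
  DL : Nat
  DLo : Nat
  K : Nat
  ga : Nat
  og : Nat
  kn : Nat
  kd : Nat
  E0 : Nat
  ED : Nat
  nc : Nat
  PD : Nat
  PLo : Nat
  PHi : Nat
  nt : Nat
  TC : Nat
  TD : Nat
  THi : Nat
  tu : Nat

/-! ### the blocks -/

/-- row `i` of `l l^T`, `cols` the columns of `l` -/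
noncomputable def rw (cols : List Nat) (i : Nat) : Nat := sumF cols fun c => Nat.mul (lq c i) c

/-- sum of the columns -/
noncomputable def ps (cols : List Nat) : Nat := sumF cols fun c => c

/-- length -/
noncomputable def len (cols : List Nat) : Nat := sumF cols fun _ => 1

/-- the offset of the entries of `l` -/
def OV : Nat := 131072

/-- columns with `n` digits of 18 bits -/
noncomputable def okL (n : Nat) (cols : List Nat) : Bool :=
  Bool.rec (motive := fun _ => Bool) false
    (allF cols fun c => Bool.rec (motive := fun _ => Bool) false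
      (allN n fun j => Nat.ble (lq c j) 262143) (Nat.ble (Nat.succ c) (Nat.pow 2 (Nat.mul 48 n))))
    (Nat.ble (len cols) 64)

/-! ### masks -/

noncomputable def mk1 (v : Nat) (t : List Nat) : Nat :=
  List.rec (motive := fun _ => Nat) 0
    (fun s _ ih => Nat.add (Nat.mul 140737488355328 (Nat.land 1 (Nat.shiftRight v s)))
      (Nat.shiftLeft ih 48)) t

noncomputable def mk2 (v : Nat) (t tw : List Nat) : Nat :=
  List.rec (motive := fun _ => Nat) 0
    (fun s _ ih => Nat.add (mk1 (Nat.shiftRight v (Nat.mul 8 s)) tw) (Nat.shiftLeft ih 192)) t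

noncomputable def mk3 (v : Nat) (t tz tw : List Nat) : Nat :=
  List.rec (motive := fun _ => Nat) 0
    (fun s _ ih => Nat.add (mk2 (Nat.shiftRight v (Nat.mul 64 s)) tz tw) (Nat.shiftLeft ih 768)) t

noncomputable def mk4 (v : Nat) (t ty tz tw : List Nat) : Nat :=
  List.rec (motive := fun _ => Nat) 0
    (fun s _ ih => Nat.add (mk3 (Nat.shiftRight v (Nat.mul 512 s)) ty tz tw)
      (Nat.shiftLeft ih 3072)) t

/-- forces the evaluation of `t` before `k` is applied -/
noncomputable def frL (t : List Nat) (k : List Nat → Nat) : Nat :=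
  List.rec (motive := fun _ => Nat) (k []) (fun x l _ => k (List.cons x l)) t

noncomputable def msk (v : Nat) (x y z w : List Nat) : Nat :=
  frL x fun x => frL y fun y => frL z fun z => frL w fun w => mk4 v x y z w

/-! ### the check at four groups -/

section

variable (S : Sd) (C : Cl)

noncomputable def Sd.ga (e : Nat) : List Gp := nth [] S.GA e

noncomputable def Sd.gl (e e' : Nat) : List Gp := nth [] (nth [] S.GL e) e'

noncomputable def Cl.l (e : Nat) : List Nat := nth [] C.L e

noncomputable def Cl.tb (g : Gp) : Nat := nth 0 (nth [] C.TB g.a) g.m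

/-- multipliers of the slot `s` of the group `g` -/
noncomputable def Cl.u (g : Gp) (s : Nat) : Nat := nth 0 (nth [] C.U g.a) (Nat.add g.x s)

/-- table of a group for a point of colour `c` in the quarters `a, b, d` -/
def tv (T c a b d : Nat) : Nat :=
  Nat.add (Nat.add (sl T (Nat.mul 4 c)) (sl T (Nat.add 20 (Nat.mul 4 a))))
    (Nat.add (sl T (Nat.add 36 (Nat.mul 4 b))) (sl T (Nat.add 52 (Nat.mul 4 d))))

/-- corrections of the offsets of the flags -/
noncomputable def Cl.kv (g : Gp) : Nat :=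
  Nat.mul OV (Nat.add (sl (ps (C.l g.a)) g.x) (Nat.add (sl (ps (C.l g.b)) g.y)
    (sl (ps (C.l g.c)) g.z)))

/-- left side without the constant -/
noncomputable def Cl.lv (x y z w : Gp) : Nat :=
  Nat.add
    (Nat.add
      (Nat.add
        (Nat.mul (sumN x.k fun i => Nat.shiftLeft
          (sp 15 (sl (rw (C.l x.a) (Nat.add x.x i)) y.x)) (Nat.mul 3072 i)) (Nat.mul f4 f1))
        (Nat.mul (sumN x.k fun i => Nat.shiftLeft
          (sp 3 (sl (rw (C.l x.b) (Nat.add x.y i)) z.x)) (Nat.mul 3072 i)) (Nat.mul f16 f1)))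
      (Nat.mul (sumN x.k fun i => Nat.shiftLeft
        (sl (rw (C.l x.c) (Nat.add x.z i)) w.x) (Nat.mul 3072 i)) (Nat.mul f16 f4)))
    (Nat.add
      (Nat.add
        (Nat.mul (sumN y.k fun i => Nat.shiftLeft
          (sp 3 (sl (rw (C.l y.b) (Nat.add y.y i)) z.y)) (Nat.mul 768 i)) (Nat.mul f64 f1))
        (Nat.mul (sumN y.k fun i => Nat.shiftLeft
          (sl (rw (C.l y.c) (Nat.add y.z i)) w.y) (Nat.mul 768 i)) (Nat.mul f64 f4)))
      (Nat.mul (sumN z.k fun i => Nat.shiftLeft
        (sl (rw (C.l z.c) (Nat.add z.z i)) w.z) (Nat.mul 192 i)) (Nat.mul f64 f16)))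

/-- tables of the faces -/
noncomputable def lt (x y z w : Gp) : Nat :=
  Nat.add
    (Nat.add
      (Nat.mul (sp 63 (tv (C.tb x) (lb S.c2 y.b) (lb S.q1 y.b) (lb S.q1 y.c) (lb S.q1 z.c)))
        (Nat.mul f16 (Nat.mul f4 f1)))
      (Nat.mul (sp 15 (tv (C.tb y) (lb S.c2 x.b) (lb S.q1 x.b) (lb S.q1 x.c) (lb S.q2 z.c)))
        (Nat.mul f64 (Nat.mul f4 f1))))
    (Nat.add
      (Nat.mul (sp 3 (tv (C.tb z) (lb S.c2 x.a) (lb S.q1 x.a) (lb S.q2 x.c) (lb S.q2 y.c)))
        (Nat.mul f64 (Nat.mul f16 f1)))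
      (Nat.mul (tv (C.tb w) (lb S.c1 x.a) (lb S.q2 x.a) (lb S.q2 x.b) (lb S.q2 y.b))
        (Nat.mul f64 (Nat.mul f16 f4))))

/-- index of four colours -/
def gi (a b c d : Nat) : Nat :=
  Nat.add (Nat.mul (Nat.add (Nat.mul (Nat.add (Nat.mul a 5) b) 5) c) 5) d

/-- the part which does not depend on the states -/
noncomputable def sc (x y z : Gp) : Nat :=
  Nat.add (Nat.add (lq C.ga (gi (lb S.c1 x.a) (lb S.c2 x.a) (lb S.c2 x.b) (lb S.c2 y.b)))
    (lq (nth 0 C.r x.a) z.c)) (Nat.add (lq (nth 0 C.r x.b) y.c) (lq (nth 0 C.r y.b) x.c))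

noncomputable def rv (x y z w : Gp) : Nat :=
  Nat.add
    (Nat.add
      (Nat.mul (Nat.add (Nat.mul (sp 63 x.n) (Nat.add (Nat.add C.K (lq C.h y.b))
        (Nat.add (lq C.h y.c) (lq C.h z.c)))) (sp 63 (C.kv x))) (Nat.mul f16 (Nat.mul f4 f1)))
      (Nat.mul (Nat.add (Nat.mul (sp 15 y.n) (Nat.add (Nat.add C.K (lq C.h x.b))
        (Nat.add (lq C.h x.c) (lq C.g z.c)))) (sp 15 (C.kv y))) (Nat.mul f64 (Nat.mul f4 f1))))
    (Nat.add
      (Nat.mul (Nat.add (Nat.mul (sp 3 z.n) (Nat.add (Nat.add C.K (lq C.h x.a))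
        (Nat.add (lq C.g x.c) (lq C.g y.c)))) (sp 3 (C.kv z))) (Nat.mul f64 (Nat.mul f16 f1)))
      (Nat.mul (Nat.add (Nat.mul w.n (Nat.add (Nat.add C.K (lq C.g x.a))
        (Nat.add (lq C.g x.b) (lq C.g y.b)))) (C.kv w)) (Nat.mul f64 (Nat.mul f16 f4))))

/-- the constant -/
def Cl.cst : Nat :=
  Nat.add (Nat.add (Nat.mul 4 C.om) (Nat.mul 12 C.ow)) (Nat.add (Nat.mul 3 C.oz) C.og)

/-- the check at four groups, `m` the mask of the possible states -/
noncomputable def chkS (m : Nat) (x y z w : Gp) : Bool :=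
  Nat.beq (Nat.land (Nat.sub
    (Nat.add (rv C x y z w)
      (Nat.mul (Nat.add C.cst 140737488355328) (Nat.mul (Nat.mul f64 f16) (Nat.mul f4 f1))))
    (Nat.add (Nat.add (C.lv x y z w) (lt S C x y z w))
      (Nat.mul (sc S C x y z) (Nat.mul (Nat.mul f64 f16) (Nat.mul f4 f1))))) m) m

/-- the check for the first pair `e`, `tab` the possible states of four free points -/
noncomputable def chkE (tab e : Nat) : Bool :=
  allF (S.ga e) fun x => allF (S.ga e) fun y => allF (S.gl x.b y.b) fun z =>
    allF (S.gl x.c y.c) fun w => Bool.rec (motive := fun _ => Bool) true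
      (chkS S C (msk tab x.t y.t z.t w.t) x y z w) (Nat.beq w.c z.c)

/-! ### the tables -/

/-- class indicator -/
def cb (x c : Nat) : Nat := Nat.land 1 (Nat.shiftRight x c)

/-- sum of three digits -/
def s3 (u k : Nat) : Nat := Nat.add (lq u k) (Nat.add (lq u (Nat.add k 1)) (lq u (Nat.add k 2)))

noncomputable def i01 (b : Bool) (v : Nat) : Nat := Bool.rec (motive := fun _ => Nat) 0 v b

/-- multipliers of a pair -/
noncomputable def Cl.pq (e : Nat) : Nat := nth 0 C.q e

/-- rows of a pair of pairs: negative and positive part -/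
noncomputable def tN (e e' : Nat) : Nat :=
  Nat.add (sumN C.nc fun c => Nat.add (Nat.mul (lq (C.pq e) (Nat.add c 6)) (lq C.PLo c))
    (Nat.mul (Nat.mul (lq (C.pq e) (Nat.add (Nat.add c C.nc) 6)) C.PD) (cb (lb C.x e') c)))
    (Nat.add (Nat.mul 18 (Nat.mul (lq (C.pq e) 0) (lb S.nn e')))
      (Nat.mul (Nat.mul 2 C.DLo) (s3 (C.pq e) 3)))

noncomputable def tP (e e' : Nat) : Nat :=
  Nat.add (sumN C.nc fun c => Nat.add (Nat.mul (Nat.mul (lq (C.pq e) (Nat.add c 6)) C.PD)
    (cb (lb C.x e') c)) (Nat.mul (lq (C.pq e) (Nat.add (Nat.add c C.nc) 6)) (lq C.PHi c)))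
    (Nat.add (Nat.mul 8 (s3 (C.pq e) 0))
      (Nat.mul (Nat.mul 2 C.DL) (Nat.mul (lq (C.pq e) 3) (lb S.nn e'))))

/-- check of the tables of a pair -/
noncomputable def okP (e : Nat) : Bool :=
  ((Nat.beq (Nat.add (lq C.h e) (Nat.mul (Nat.mul 2 C.DL) (lq (C.pq e) 4)))
      (Nat.add C.oh (Nat.mul 18 (lq (C.pq e) 1))) &&
    Nat.beq (Nat.add (lq C.g e) (Nat.mul (Nat.mul 2 C.DL) (lq (C.pq e) 5)))
      (Nat.add C.oh (Nat.mul 18 (lq (C.pq e) 2)))) &&
   ((Nat.ble (lq C.h e) 1099511627776 && Nat.ble (lq C.g e) 1099511627776) &&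
    Nat.ble (Nat.succ (nth 0 C.r e)) (Nat.pow 2 (Nat.mul 48 S.np)))) &&
  allN S.np fun e' => Nat.beq
      (Nat.add (lq (nth 0 C.r e) e') (Nat.add (Nat.add (tN S C e e') (tN S C e' e))
        (Nat.mul OV (Nat.add (lq (ps C.Z) e) (lq (ps C.Z) e')))))
      (Nat.add (lq (rw C.Z e) e') (Nat.add (Nat.add (tP S C e e') (tP S C e' e))
        (Nat.add C.oz (Nat.mul (Nat.mul OV OV)
          (Nat.add (len C.Z) (Nat.add (len (C.l e)) (len (C.l e')))))))) &&
    Nat.ble (lq (nth 0 C.r e) e') 4398046511103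

/-- class of a face: the bit of the colours and of the non-acute indicator -/
def tch (TC j f : Nat) : Nat :=
  Nat.land 1 (Nat.shiftRight (Nat.shiftRight TC (Nat.mul 250 j)) (Nat.add (Nat.mul 2
    (Nat.add (Nat.mul (Nat.add (Nat.mul (f / 262144 % 8) 5) (f / 32768 % 8)) 5)
      (f / 4096 % 8))) (na f)))

/-- code of a face from its pairs and its state -/
noncomputable def Sd.code (g : Gp) (t : Nat) : Nat :=
  Nat.add (Nat.mul 4096 (Nat.add (Nat.mul 8 (Nat.add (Nat.mul 8 (lb S.c1 g.a)) (lb S.c2 g.a)))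
    (lb S.c2 g.b))) (Nat.add (Nat.mul 8 (Nat.add (Nat.mul 8 (Nat.add (Nat.mul 8
      (nth 0 S.pk g.a % 8)) (nth 0 S.pk g.b % 8))) (nth 0 S.pk g.c % 8))) t)

/-- rows of the classes of triples: negative and positive part -/
noncomputable def rN (f c : Nat) : Nat :=
  sumN C.nt fun j => Nat.mul (lq C.tu (Nat.add (Nat.mul 5 j) c)) (Nat.mul C.TD (tch C.TC j f))

noncomputable def rP (c : Nat) : Nat :=
  sumN C.nt fun j => Nat.mul (lq C.tu (Nat.add (Nat.mul 5 j) c)) (lq C.THi j)

/-- the mass and window part of the table: face `f`, multipliers `u`, table `T`, slot `s`, colour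
`c`, indicator `n` -/
noncomputable def okM (f u T s n c : Nat) : Bool :=
  Nat.beq
    (Nat.add (Nat.add (lq T (Nat.add (Nat.mul 4 c) s))
        (Nat.add (rN C f c) (sumN 5 fun k => Nat.mul (lq u k) (lq C.Lo k))))
      (Nat.add (Nat.mul (lq u (Nat.add c 5)) C.D)
        (i01 (Nat.beq c 0) (Nat.add (Nat.add (s3 u 10) (s3 u 13))
          (Nat.mul 3 (Nat.add (s3 u 16) (s3 u 19)))))))
    (Nat.add (Nat.add (Nat.add C.om (Nat.mul (Nat.mul 3 C.oh) n)) (Nat.add (rP C c)
        (Nat.mul (lq u c) C.D)))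
      (Nat.add (sumN 5 fun k => Nat.mul (lq u (Nat.add k 5)) (lq C.Hi k))
        (Nat.add (s3 u 16) (s3 u 19))))

/-- the quarter is ahead -/
noncomputable def q03 (q : Nat) : Bool :=
  Bool.rec (motive := fun _ => Bool) (Nat.beq q 3) true (Nat.beq q 0)

/-- a multiplier which must vanish unless the colour is `4` -/
def z4 (v c : Nat) : Bool := Nat.beq v 0 || Nat.beq c 4

/-- the table of the point `j` of a triple, `e` the opposite pair, `q` the quarter (`3`: ahead, of
colour `0`, the point of the triple has colour `4`, acute) -/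
noncomputable def okW (u T s j e q : Nat) : Bool :=
  Nat.beq
    (Nat.add (lq T (Nat.add (Nat.add 20 (Nat.mul 16 j)) (Nat.add (Nat.mul 4 q) s))) (Nat.add
      (Nat.add (i01 (Nat.beq q 3) (Nat.mul (lq u (Nat.add j 28)) C.ED))
        (Nat.mul (Nat.mul 2 (Nat.mul C.kn C.kd))
          (Nat.add (lq u (Nat.add j 22)) (lq u (Nat.add j 25)))))
      (Nat.add (i01 (q03 q) (lq u (Nat.add j 16))) (i01 (Nat.beq q 1) (lq u (Nat.add j 19))))))
    (Nat.add (Nat.add (Nat.add C.ow (Nat.mul (lq u (Nat.add j 28)) C.E0))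
        (Nat.mul (Nat.mul C.kn C.kn) (Nat.add (lq C.mf e) (lq C.mb e)))) (Nat.add
      (i01 (q03 q) (Nat.add (lq u (Nat.add j 10))
        (Nat.mul (Nat.mul 2 (Nat.mul C.kd C.kd)) (lq u (Nat.add j 22)))))
      (i01 (Nat.beq q 1) (Nat.add (lq u (Nat.add j 13))
        (Nat.mul (Nat.mul 2 (Nat.mul C.kd C.kd)) (lq u (Nat.add j 25)))))))

/-- check of a face: face `f`, multipliers `u`, table `T` -/
noncomputable def okU (g : Gp) (f u T s n : Nat) : Bool :=
  ((allN 5 fun c => okM C f u T s n c) && (z4 (lq u 28) (lb S.c1 g.a) &&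
    (z4 (lq u 29) (lb S.c2 g.a) && z4 (lq u 30) (lb S.c2 g.b)))) &&
  ((allN 4 fun q => okW C u T s 0 g.c q && (okW C u T s 1 g.b q && okW C u T s 2 g.a q)) &&
   (((Nat.ble (lq u 22) (lq C.mf g.c) && (Nat.ble (lq u 23) (lq C.mf g.b) &&
      Nat.ble (lq u 24) (lq C.mf g.a)))) &&
    (Nat.ble (lq u 25) (lq C.mb g.c) && (Nat.ble (lq u 26) (lq C.mb g.b) &&
      Nat.ble (lq u 27) (lq C.mb g.a)))))

/-- check of a group -/
noncomputable def okG (g : Gp) : Bool :=
  ((allN 68 fun j => Nat.ble (lq (C.tb g) j) 4398046511103) &&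
    Nat.ble (Nat.succ (C.tb g)) (Nat.pow 2 (Nat.mul 48 68))) &&
  allN g.k fun s => okU S C g (S.code g (nth 0 g.t s)) (C.u g s) (C.tb g) s (lq g.n s)

/-- the tables are right -/
noncomputable def ok1 : Bool :=
  (Nat.ble (Nat.succ C.h) (Nat.pow 2 (Nat.mul 48 S.np)) &&
    Nat.ble (Nat.succ C.g) (Nat.pow 2 (Nat.mul 48 S.np))) && allN S.np fun e => okP S C e

noncomputable def ok2 : Bool := allF S.GA fun l => allF l fun g => okG S C g

noncomputable def ok3 : Bool :=
  ((okL S.np C.Z && allN S.np fun e => okL (lb S.nb e) (C.l e)) &&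
    ((allN 625 fun j => Nat.ble (lq C.ga j) 4398046511103) &&
      Nat.ble (Nat.succ C.ga) (Nat.pow 2 (Nat.mul 48 625)))) &&
  ((Nat.ble C.cst 35184372088832 && Nat.ble C.K 1099511627776) &&
    (Nat.ble (sumF C.L fun _ => 1) S.np && Nat.ble (sumF C.r fun _ => 1) S.np))

end

/-! ### the static facts -/

/-- the group of a face code in a list -/
noncomputable def fnd (l : List Gp) (c : Nat) : Gp :=
  List.rec (motive := fun _ => Gp) ⟨0, 0, 0, 0, 0, 0, 0, 0, 0, []⟩
    (fun x _ ih => Bool.rec (motive := fun _ => Gp) ih x (Nat.beq x.c c)) l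

noncomputable def memG (l : List Gp) (c : Nat) : Bool :=
  List.rec (motive := fun _ => Bool) false
    (fun x _ ih => Bool.rec (motive := fun _ => Bool) ih true (Nat.beq x.c c)) l

/-- position of a state in a list -/
noncomputable def pst (l : List Nat) (t : Nat) : Nat :=
  List.rec (motive := fun _ => Nat) 0
    (fun x _ ih => Bool.rec (motive := fun _ => Nat) (Nat.succ ih) 0 (Nat.beq x t)) l

/-- equality of lists -/
noncomputable def eqL (l : List Nat) : List Nat → Bool :=
  List.rec (motive := fun _ => List Nat → Bool)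
    (fun m => List.rec (motive := fun _ => Bool) true (fun _ _ _ => false) m)
    (fun x _ ih m => List.rec (motive := fun _ => Bool) false
      (fun y m' _ => Nat.beq x y && ih m') m) l

/-- equality of groups -/
noncomputable def eqG (g h : Gp) : Bool :=
  ((Nat.beq g.a h.a && (Nat.beq g.b h.b && Nat.beq g.c h.c)) &&
    (Nat.beq g.x h.x && (Nat.beq g.y h.y && Nat.beq g.z h.z))) &&
  ((Nat.beq g.m h.m && (Nat.beq g.n h.n && Nat.beq g.k h.k)) && eqL g.t h.t)

/-- is `g` in the list? -/
noncomputable def memH (l : List Gp) (g : Gp) : Bool :=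
  List.rec (motive := fun _ => Bool) false
    (fun x _ ih => Bool.rec (motive := fun _ => Bool) ih true (eqG x g)) l

section

variable (S : Sd)

noncomputable def Sd.ix (k : Nat) : Nat := lb S.IX k

noncomputable def Sd.grp (f : Nat) : Gp := fnd (S.gl (S.ix (pa f)) (S.ix (pb f))) (S.ix (pc' f))

noncomputable def Sd.st (f : Nat) : Nat := pst (S.grp f).t (f % 8)

/-- static facts about a pair code -/
noncomputable def stP (k : Nat) : Bool :=
  ((Nat.ble (Nat.succ (S.ix k)) S.np && Nat.beq (nth 0 S.pk (S.ix k)) k) &&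
    (Nat.beq (lb S.c1 (S.ix k)) (k / 64) && Nat.beq (lb S.c2 (S.ix k)) (k / 8 % 8))) &&
  (((Nat.ble (k / 64) 4 && Nat.ble (k / 8 % 8) 4) && (Nat.beq (lb S.q1 (S.ix k)) (qf (k % 8)) &&
    Nat.beq (lb S.nn (S.ix k)) (na (k % 8)))) &&
   Bool.rec (motive := fun _ => Bool) (Nat.beq (lb S.q2 (S.ix k)) (qb (k % 8)))
    (Nat.beq (lb S.q2 (S.ix k)) 3 && Nat.beq (qb (k % 8)) 0) (c04 k))

/-- static facts about a group -/
noncomputable def stG (g : Gp) : Bool :=
  (Nat.ble g.k 4 && Nat.beq g.k (len g.t)) &&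
    (Nat.ble (Nat.succ g.n) (Nat.pow 2 192) && allN 4 fun j => Nat.ble (lq g.n j) 1)

/-- static facts about a face code -/
noncomputable def stF (f : Nat) : Bool :=
  ((stP S (pa f) && (stP S (pb f) && stP S (pc' f))) &&
    (memG (S.gl (S.ix (pa f)) (S.ix (pb f))) (S.ix (pc' f)) &&
      memH (S.ga (S.ix (pa f))) (S.grp f))) &&
  (((Nat.beq (S.grp f).a (S.ix (pa f)) && Nat.beq (S.grp f).b (S.ix (pb f))) &&
    (Nat.beq (nth 0 (S.grp f).t (S.st f)) (f % 8) && Nat.ble (Nat.succ (S.st f)) (S.grp f).k)) &&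
   (Nat.beq (lq (S.grp f).n (S.st f)) (na (f % 8)) && Nat.beq (S.code (S.grp f) (f % 8)) f))

noncomputable def okS : Bool :=
  allF S.FL (stF S) && allF S.GA fun l => allF l stG

end

end Pool.Agent.AKY
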