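import Pool.Agent.AKY.Def
import Mathlib

set_option autoImplicit false

/-!
# Packed digits
-/

namespace Pool.Agent.AKY

open Finset

theorem nadd (a b : Nat) : Nat.add a b = a + b := rfl

theorem nmul (a b : Nat) : Nat.mul a b = a * b := rfl

theorem nsub (a b : Nat) : Nat.sub a b = a - b := rfl

theorem npow (a b : Nat) : Nat.pow a b = a ^ b := rfl

theorem nsl (a b : Nat) : Nat.shiftLeft a b = 2 ^ b * a := by
  have : Nat.shiftLeft a b = a <<< b := rfl
  rw [this, Nat.shiftLeft_eq, mul_comm]

theorem nsr (a b : Nat) : Nat.shiftRight a b = a >>> b := rfl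

theorem nland (a b : Nat) : Nat.land a b = a &&& b := rfl

theorem allN_iff {n : Nat} {g : Nat → Bool} : allN n g = true ↔ ∀ k < n, g k = true := by
  induction n with
  | zero => simp [allN]
  | succ n ih =>
    have : allN (n + 1) g = Bool.rec (motive := fun _ => Bool) false (allN n g) (g n) := rfl
    rw [this]
    constructor
    · intro h k hk
      cases hg : g n
      · rw [hg] at h; exact absurd h (by simp)
      · rw [hg] at h
        rcases Nat.lt_succ_iff_lt_or_eq.1 hk with h1 | h1
        · exact ih.1 h k h1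
        · rw [h1]; exact hg
    · intro h
      rw [h n (Nat.lt_succ_self n)]
      exact ih.2 fun k hk => h k (Nat.lt_succ_of_lt hk)

theorem allF_iff {α : Type} {l : List α} {g : α → Bool} :
    allF l g = true ↔ ∀ x ∈ l, g x = true := by
  induction l with
  | nil => simp [allF]
  | cons x l ih =>
    have : allF (x :: l) g = Bool.rec (motive := fun _ => Bool) false (allF l g) (g x) := rfl
    rw [this, List.forall_mem_cons]
    cases g x
    · simp
    · simp [ih]

theorem sumN_eq (n : Nat) (g : Nat → Nat) : sumN n g = ∑ k ∈ range n, g k := by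
  induction n with
  | zero => simp [sumN]
  | succ n ih =>
    have : sumN (n + 1) g = sumN n g + g n := rfl
    rw [this, ih, sum_range_succ]

theorem sumF_eq {α : Type} (l : List α) (g : α → Nat) : sumF l g = (l.map g).sum := by
  induction l with
  | nil => rfl
  | cons x l ih =>
    have : sumF (x :: l) g = g x + sumF l g := rfl
    rw [this, ih, List.map_cons, List.sum_cons]

theorem nth_nil {α : Type} (d : α) (i : Nat) : nth d ([] : List α) i = d := rfl

theorem nth_cons_zero {α : Type} (d x : α) (l : List α) : nth d (x :: l) 0 = x := rfl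

theorem nth_cons_succ {α : Type} (d x : α) (l : List α) (i : Nat) :
    nth d (x :: l) (i + 1) = nth d l i := rfl

theorem nth_mem {α : Type} (d : α) (l : List α) (i : Nat) : nth d l i = d ∨ nth d l i ∈ l := by
  induction l generalizing i with
  | nil => left; rfl
  | cons x l ih =>
    cases i with
    | zero => right; rw [nth_cons_zero]; exact List.mem_cons_self
    | succ i =>
      rw [nth_cons_succ]
      rcases ih i with h | h
      · left; exact h
      · right; exact List.mem_cons_of_mem _ h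

/-! ### digits of 48 bits -/

theorem lq_eq (P k : Nat) : lq P k = (P >>> (48 * k)) % 2 ^ 48 := rfl

theorem lq_lt (P k : Nat) : lq P k < 2 ^ 48 := by
  rw [lq_eq]
  exact Nat.mod_lt _ (by norm_num)

theorem lq_bit (P k i : Nat) : (lq P k).testBit i = (decide (i < 48) && P.testBit (48 * k + i)) := by
  rw [lq_eq, Nat.testBit_mod_two_pow, Nat.testBit_shiftRight]

theorem lq_zero (k : Nat) : lq 0 k = 0 := by
  rw [lq_eq]
  simp

theorem lq_app {x : Nat} (y : Nat) {n : Nat} (hx : x < 2 ^ (48 * n)) (k : Nat) :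
    lq (2 ^ (48 * n) * y + x) k = if k < n then lq x k else lq y (k - n) := by
  refine Nat.eq_of_testBit_eq fun i => ?_
  split_ifs with h
  · rw [lq_bit, lq_bit, Nat.testBit_two_pow_mul_add y hx]
    by_cases hi : i < 48
    · rw [if_pos (by omega)]
    · simp [hi]
  · rw [lq_bit, lq_bit, Nat.testBit_two_pow_mul_add y hx]
    by_cases hi : i < 48
    · rw [if_neg (by omega)]
      congr 2
      omega
    · simp [hi]

theorem lq_big {x n : Nat} (hx : x < 2 ^ (48 * n)) {k : Nat} (hk : n ≤ k) : lq x k = 0 := by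
  have h := lq_app 0 hx k
  rw [mul_zero, zero_add, if_neg (by omega), lq_zero] at h
  exact h

/-- packed number -/
def ds (d : Nat → Nat) : Nat → Nat
  | 0 => 0
  | n + 1 => 2 ^ (48 * n) * d n + ds d n

theorem ds_lt {d : Nat → Nat} {n : Nat} (h : ∀ j < n, d j < 2 ^ 48) : ds d n < 2 ^ (48 * n) := by
  induction n with
  | zero => simp [ds]
  | succ n ih =>
    have h1 := ih fun j hj => h j (by omega)
    have h2 := h n (by omega)
    have h3 : 2 ^ (48 * n) * (d n + 1) ≤ 2 ^ (48 * n) * 2 ^ 48 := Nat.mul_le_mul_left _ h2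
    have h4 : 2 ^ (48 * (n + 1)) = 2 ^ (48 * n) * 2 ^ 48 := by rw [← pow_add]; ring_nf
    rw [h4]
    unfold ds
    rw [mul_add, mul_one] at h3
    omega

theorem lq_ds {d : Nat → Nat} {n : Nat} (h : ∀ j < n, d j < 2 ^ 48) (k : Nat) :
    lq (ds d n) k = if k < n then d k else 0 := by
  induction n with
  | zero => simp [ds, lq_zero]
  | succ n ih =>
    have h1 : ∀ j < n, d j < 2 ^ 48 := fun j hj => h j (by omega)
    have h2 := ds_lt h1
    unfold ds
    rw [lq_app _ h2, ih h1]
    by_cases hk : k < n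
    · rw [if_pos hk, if_pos hk, if_pos (by omega)]
    · rw [if_neg hk]
      by_cases hk2 : k = n
      · subst hk2
        rw [if_pos (by omega), Nat.sub_self, lq_eq]
        simp only [mul_zero, Nat.shiftRight_zero]
        exact Nat.mod_eq_of_lt (h k (by omega))
      · rw [if_neg (by omega)]
        have : d n < 2 ^ (48 * 1) := h n (by omega)
        exact lq_big this (by omega)

theorem eq_ds {P n : Nat} (h : P < 2 ^ (48 * n)) : P = ds (lq P) n := by
  induction n generalizing P with
  | zero =>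
    simp at h
    simp [ds, h]
  | succ n ih =>
    have h1 : P = 2 ^ (48 * n) * (P / 2 ^ (48 * n)) + P % 2 ^ (48 * n) := (Nat.div_add_mod _ _).symm
    have h2 : P % 2 ^ (48 * n) < 2 ^ (48 * n) := Nat.mod_lt _ (by positivity)
    have h3 := ih h2
    have h4 : P / 2 ^ (48 * n) < 2 ^ 48 := by
      rw [Nat.div_lt_iff_lt_mul (by positivity)]
      rw [← pow_add]
      have : 48 * (n + 1) = 48 + 48 * n := by ring
      rwa [this] at h
    have h5 : lq P n = P / 2 ^ (48 * n) := by
      rw [lq_eq, Nat.shiftRight_eq_div_pow]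
      exact Nat.mod_eq_of_lt h4
    have h6 : ∀ m ≤ n, ds (lq (P % 2 ^ (48 * n))) m = ds (lq P) m := by
      intro m hm
      induction m with
      | zero => rfl
      | succ m ihm =>
        unfold ds
        rw [ihm (by omega)]
        have := lq_app (P / 2 ^ (48 * n)) h2 m
        rw [← h1, if_pos (by omega)] at this
        rw [this]
    unfold ds
    rw [h5, ← h6 n le_rfl, ← h3]
    exact h1

theorem exists_lt (a : Nat) : ∃ n, a < 2 ^ (48 * n) :=
  ⟨a, lt_of_lt_of_le (Nat.lt_two_pow_self) (Nat.pow_le_pow_right (by norm_num) (by omega))⟩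

theorem ds_add (d e : Nat → Nat) (n : Nat) : ds d n + ds e n = ds (fun j => d j + e j) n := by
  induction n with
  | zero => rfl
  | succ n ih =>
    unfold ds
    rw [← ih]
    ring

theorem ds_mul (d : Nat → Nat) (t n : Nat) : t * ds d n = ds (fun j => t * d j) n := by
  induction n with
  | zero => rfl
  | succ n ih =>
    unfold ds
    rw [← ih]
    ring

/-- no carry in a sum -/
theorem lq_add {a b : Nat} (h : ∀ j, lq a j + lq b j < 2 ^ 48) (j : Nat) :
    lq (a + b) j = lq a j + lq b j := by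
  obtain ⟨n, hn⟩ := exists_lt (a + b)
  have ha : a < 2 ^ (48 * n) := by omega
  have hb : b < 2 ^ (48 * n) := by omega
  have e : a + b = ds (fun j => lq a j + lq b j) n := by
    rw [← ds_add, ← eq_ds ha, ← eq_ds hb]
  rw [e, lq_ds (fun j _ => h j)]
  split_ifs with hj
  · rfl
  · rw [lq_big ha (by omega), lq_big hb (by omega)]

/-- no carry in a product with a number -/
theorem lq_mul {a t : Nat} (h : ∀ j, t * lq a j < 2 ^ 48) (j : Nat) :
    lq (t * a) j = t * lq a j := by
  obtain ⟨n, ha⟩ := exists_lt a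
  have e : t * a = ds (fun j => t * lq a j) n := by
    rw [← ds_mul, ← eq_ds ha]
  rw [e, lq_ds (fun j _ => h j)]
  split_ifs with hj
  · rfl
  · rw [lq_big ha (by omega), mul_zero]

/-! ### four digits -/

/-- polynomial of degree three -/
def P4 (b : Nat) (g : Nat → Nat) : Nat := b * (b * (b * g 3 + g 2) + g 1) + g 0

theorem ds_four (g : Nat → Nat) : ds g 4 = P4 (2 ^ 48) g := by
  simp only [ds, P4]
  ring

theorem sl_eq (P k : Nat) : sl P k = (P >>> (48 * k)) % 2 ^ 192 := rfl

theorem sl_lt (P k : Nat) : sl P k < 2 ^ (48 * 4) := by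
  rw [sl_eq]
  exact Nat.mod_lt _ (by norm_num)

theorem lq_sl (P k : Nat) {l : Nat} (hl : l < 4) : lq (sl P k) l = lq P (k + l) := by
  refine Nat.eq_of_testBit_eq fun i => ?_
  rw [lq_bit, lq_bit, sl_eq, Nat.testBit_mod_two_pow, Nat.testBit_shiftRight]
  by_cases hi : i < 48
  · rw [show 48 * k + (48 * l + i) = 48 * (k + l) + i by ring]
    simp [hi, show 48 * l + i < 192 by omega]
  · simp [hi]

theorem P4_congr {b : Nat} {g h : Nat → Nat} (e : ∀ i < 4, g i = h i) : P4 b g = P4 b h := by
  unfold P4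
  rw [e 0 (by norm_num), e 1 (by norm_num), e 2 (by norm_num), e 3 (by norm_num)]

theorem sl_P4 (P k : Nat) : sl P k = P4 (2 ^ 48) fun l => lq P (k + l) := by
  rw [eq_ds (sl_lt P k), ds_four]
  exact P4_congr fun l hl => lq_sl P k hl

theorem P4_lt {n : Nat} {g : Nat → Nat} (h : ∀ i < 4, g i < 2 ^ n) : P4 (2 ^ n) g < 2 ^ (4 * n) := by
  have h0 := h 0 (by norm_num)
  have h1 := h 1 (by norm_num)
  have h2 := h 2 (by norm_num)
  have h3 := h 3 (by norm_num)
  have e : 2 ^ (4 * n) = 2 ^ n * (2 ^ n * (2 ^ n * 2 ^ n)) := by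
    rw [← pow_add, ← pow_add, ← pow_add]; ring_nf
  rw [e]
  unfold P4
  set b := 2 ^ n
  have k1 : b * g 3 + g 2 < b * b := by nlinarith
  have k2 : b * (b * g 3 + g 2) + g 1 < b * (b * b) := by nlinarith
  nlinarith

theorem P4_bit {n : Nat} {g : Nat → Nat} (h : ∀ i < 4, g i < 2 ^ n) {i m : Nat} (hi : i < 4)
    (hm : m < n) : (P4 (2 ^ n) g).testBit (n * i + m) = (g i).testBit m := by
  have h0 := h 0 (by norm_num)
  have h1 := h 1 (by norm_num)
  have h2 := h 2 (by norm_num)
  unfold P4
  rw [Nat.testBit_two_pow_mul_add _ h0]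
  interval_cases i
  · rw [if_pos (by omega)]; congr 1; omega
  · rw [if_neg (by omega), Nat.testBit_two_pow_mul_add _ h1, if_pos (by omega)]
    congr 1; omega
  · rw [if_neg (by omega), Nat.testBit_two_pow_mul_add _ h1, if_neg (by omega),
      Nat.testBit_two_pow_mul_add _ h2, if_pos (by omega)]
    congr 1; omega
  · rw [if_neg (by omega), Nat.testBit_two_pow_mul_add _ h1, if_neg (by omega),
      Nat.testBit_two_pow_mul_add _ h2, if_neg (by omega)]
    congr 1; omega

theorem P4_add (b : Nat) (g h : Nat → Nat) : P4 b g + P4 b h = P4 b fun i => g i + h i := by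
  unfold P4
  ring

theorem P4_mul (b c : Nat) (g : Nat → Nat) : P4 b g * c = P4 b fun i => g i * c := by
  unfold P4
  ring

theorem P4_zero (b : Nat) : (P4 b fun _ => 0) = 0 := by
  unfold P4
  ring

/-! ### moving digits -/

theorem land_app {n a a' : Nat} (b b' : Nat) (h : a < 2 ^ n) (h' : a' < 2 ^ n) :
    (2 ^ n * b + a) &&& (2 ^ n * b' + a') = 2 ^ n * (b &&& b') + (a &&& a') := by
  have h2 : a &&& a' < 2 ^ n := Nat.and_lt_two_pow _ h'
  refine Nat.eq_of_testBit_eq fun i => ?_
  rw [Nat.testBit_and, Nat.testBit_two_pow_mul_add _ h, Nat.testBit_two_pow_mul_add _ h',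
    Nat.testBit_two_pow_mul_add _ h2]
  split_ifs <;> rw [Nat.testBit_and]

theorem land_digit (v m : Nat) : v &&& (2 ^ (48 * m) * 281474976710655) = 2 ^ (48 * m) * lq v m := by
  have e : 2 ^ (48 * m) * 281474976710655 = 2 ^ (48 * m) * (2 ^ 48 - 1) := by norm_num
  rw [e]
  refine Nat.eq_of_testBit_eq fun i => ?_
  rw [Nat.testBit_and, Nat.testBit_two_pow_mul, Nat.testBit_two_pow_mul, Nat.testBit_two_pow_sub_one,
    lq_bit]
  by_cases hi : 48 * m ≤ i
  · rw [show 48 * m + (i - 48 * m) = i by omega]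
    simp [hi]
    cases v.testBit i <;> simp
  · simp [hi]

theorem fl_eq (s : Nat) : fl s = P4 (2 ^ (48 * s)) fun _ => 1 := by
  unfold fl P4
  simp only [nadd, nmul, npow]
  rw [show 96 * s = 48 * s + 48 * s by ring, show 144 * s = 48 * s + (48 * s + 48 * s) by ring,
    pow_add, pow_add, pow_add]
  ring

/-- digits at the distance `s + 1` -/
theorem sp_eq {s v : Nat} (hs : 4 ≤ s) (hv : v < 2 ^ (48 * 4)) :
    sp s v = P4 (2 ^ (48 * (s + 1))) (lq v) := by
  have hvs : v < 2 ^ (48 * s) := lt_of_lt_of_le hv (Nat.pow_le_pow_right (by norm_num) (by omega))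
  have hm : ∀ m < 4, 2 ^ (48 * m) * 281474976710655 < 2 ^ (48 * s) := by
    intro m hm
    have h1 : 2 ^ (48 * m) * 281474976710655 < 2 ^ (48 * m) * 2 ^ 48 :=
      Nat.mul_lt_mul_of_pos_left (by norm_num) (by positivity)
    rw [← pow_add] at h1
    exact lt_of_lt_of_le h1 (Nat.pow_le_pow_right (by norm_num) (by omega))
  have e1 : v * fl s = 2 ^ (48 * s) * (2 ^ (48 * s) * (2 ^ (48 * s) * v + v) + v) + v := by
    rw [fl_eq]; unfold P4; ring
  have e2 : ms (s + 1) = 2 ^ (48 * s) * (2 ^ (48 * s) * (2 ^ (48 * s) *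
      (2 ^ (48 * 3) * 281474976710655) + 2 ^ (48 * 2) * 281474976710655) +
        2 ^ (48 * 1) * 281474976710655) + 2 ^ (48 * 0) * 281474976710655 := by
    unfold ms
    rw [nmul, fl_eq]
    unfold P4
    rw [show 48 * (s + 1) = 48 * s + 48 by ring, pow_add]
    ring
  unfold sp
  rw [nmul, nland, show Nat.succ s = s + 1 from rfl, e1, e2,
    land_app _ _ hvs (hm 0 (by norm_num)), land_app _ _ hvs (hm 1 (by norm_num)),
    land_app _ _ hvs (hm 2 (by norm_num)), land_digit, land_digit, land_digit, land_digit]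
  unfold P4
  rw [show 48 * (s + 1) = 48 * s + 48 by ring, pow_add]
  ring

theorem land_ds {d e : Nat → Nat} {n : Nat} (hd : ∀ j < n, d j < 2 ^ 48)
    (he : ∀ j < n, e j < 2 ^ 48) : ds d n &&& ds e n = ds (fun j => d j &&& e j) n := by
  induction n with
  | zero => simp [ds]
  | succ n ih =>
    unfold ds
    rw [land_app _ _ (ds_lt fun j hj => hd j (by omega)) (ds_lt fun j hj => he j (by omega)),
      ih (fun j hj => hd j (by omega)) (fun j hj => he j (by omega))]

theorem sp_three {v : Nat} (hv : v < 2 ^ (48 * 4)) (hd : ∀ l < 4, lq v l < 2 ^ 47) :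
    sp 3 v = P4 (2 ^ (48 * 4)) (lq v) := by
  have hv2 : v = P4 (2 ^ 48) (lq v) := by
    conv_lhs => rw [eq_ds hv, ds_four]
  set g := lq v with hg
  have h0 := hd 0 (by norm_num)
  have h1 := hd 1 (by norm_num)
  have h2 := hd 2 (by norm_num)
  have h3 := hd 3 (by norm_num)
  let d : Nat → Nat := fun j => [g 0, g 1, g 2, g 3 + g 0, g 1, g 2, g 3 + g 0, g 1, g 2,
    g 3 + g 0, g 1, g 2, g 3].getD j 0
  let e : Nat → Nat := fun j => [281474976710655, 0, 0, 0, 281474976710655, 0, 0, 0,
    281474976710655, 0, 0, 0, 281474976710655].getD j 0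
  have pw : ∀ n, 2 ^ (48 * n) = (2 ^ 48) ^ n := fun n => pow_mul 2 48 n
  have e1 : v * fl 3 = ds d 13 := by
    rw [fl_eq, hv2]
    simp only [ds, P4, d, List.getD_cons_zero, List.getD_cons_succ, pw]
    generalize (2 : Nat) ^ 48 = b
    ring
  have e2 : ms (3 + 1) = ds e 13 := by
    unfold ms
    rw [nmul, fl_eq]
    simp only [ds, P4, e, List.getD_cons_zero, List.getD_cons_succ, pw]
    generalize (2 : Nat) ^ 48 = b
    ring
  have k : ∀ x : Nat, x < 2 ^ 48 → x &&& 281474976710655 = x := by
    intro x hx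
    have : x &&& (2 ^ 48 - 1) = x % 2 ^ 48 := Nat.and_two_pow_sub_one_eq_mod _ _
    rw [show (281474976710655 : Nat) = 2 ^ 48 - 1 by norm_num, this]
    exact Nat.mod_eq_of_lt hx
  have hdl : ∀ j < 13, d j < 2 ^ 48 := by
    intro j hj
    simp only [d]
    interval_cases j <;>
      simp only [List.getD_cons_zero, List.getD_cons_succ] <;> omega
  have hel : ∀ j < 13, e j < 2 ^ 48 := by
    intro j hj
    simp only [e]
    interval_cases j <;>
      simp only [List.getD_cons_zero, List.getD_cons_succ] <;> norm_num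
  unfold sp
  rw [nmul, nland, show Nat.succ 3 = 3 + 1 from rfl, e1, e2, land_ds hdl hel]
  simp only [ds, P4, d, e, List.getD_cons_zero, List.getD_cons_succ, Nat.and_zero, pw]
  rw [k _ (by omega), k _ (by omega), k _ (by omega), k _ (by omega)]
  generalize (2 : Nat) ^ 48 = b
  ring

/-! ### sums of shifted numbers -/

theorem sumN_P4 {n : Nat} (s : Nat) (g : Nat → Nat) (hn : n ≤ 4) :
    (sumN n fun i => Nat.shiftLeft (g i) (Nat.mul s i)) =
      P4 (2 ^ s) fun i => if i < n then g i else 0 := by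
  rw [sumN_eq]
  simp only [nsl, nmul]
  have e : ∀ i, 2 ^ (s * i) = (2 ^ s) ^ i := fun i => by rw [pow_mul]
  simp only [e]
  unfold P4
  interval_cases n <;> simp [sum_range_succ] <;> ring

end Pool.Agent.AKY
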