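import Pool.Agent.AKY.Dig

set_option autoImplicit false

/-!
# The check at four groups gives the inequality for every choice of slots
-/

namespace Pool.Agent.AKY

open Finset

/-- packed function of four slots -/
def pk (f : Nat → Nat → Nat → Nat → Nat) : Nat :=
  P4 (2 ^ 3072) fun i => P4 (2 ^ 768) fun j => P4 (2 ^ 192) fun k => P4 (2 ^ 48) fun l => f i j k l

theorem pk_add (f g : Nat → Nat → Nat → Nat → Nat) :
    pk f + pk g = pk fun i j k l => f i j k l + g i j k l := by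
  unfold pk
  simp only [P4_add]

theorem pk_congr {f g : Nat → Nat → Nat → Nat → Nat}
    (h : ∀ i < 4, ∀ j < 4, ∀ k < 4, ∀ l < 4, f i j k l = g i j k l) : pk f = pk g :=
  P4_congr fun i hi => P4_congr fun j hj => P4_congr fun k hk => P4_congr fun l hl =>
    h i hi j hj k hk l hl

theorem pk_bit {f : Nat → Nat → Nat → Nat → Nat}
    (h : ∀ i < 4, ∀ j < 4, ∀ k < 4, ∀ l < 4, f i j k l < 2 ^ 48) {i j k l m : Nat} (hi : i < 4)
    (hj : j < 4) (hk : k < 4) (hl : l < 4) (hm : m < 48) :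
    (pk f).testBit (3072 * i + (768 * j + (192 * k + (48 * l + m)))) = (f i j k l).testBit m := by
  have h1 : ∀ i < 4, ∀ j < 4, ∀ k < 4, (P4 (2 ^ 48) fun l => f i j k l) < 2 ^ 192 :=
    fun i hi j hj k hk => P4_lt (n := 48) fun l hl => h i hi j hj k hk l hl
  have h2 : ∀ i < 4, ∀ j < 4, (P4 (2 ^ 192) fun k => P4 (2 ^ 48) fun l => f i j k l) < 2 ^ 768 :=
    fun i hi j hj => P4_lt (n := 192) fun k hk => h1 i hi j hj k hk
  have h3 : ∀ i < 4, (P4 (2 ^ 768) fun j => P4 (2 ^ 192) fun k => P4 (2 ^ 48) fun l =>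
      f i j k l) < 2 ^ 3072 := fun i hi => P4_lt (n := 768) fun j hj => h2 i hi j hj
  unfold pk
  rw [P4_bit (n := 3072) h3 hi (by omega), P4_bit (n := 768) (h2 i hi) hj (by omega),
    P4_bit (n := 192) (h1 i hi j hj) hk (by omega), P4_bit (n := 48) (h i hi j hj k hk) hl hm]

/-- `1 + b + b ^ 2 + b ^ 3` -/
def F4 (b : Nat) : Nat := P4 b fun _ => 1

theorem P4_const (b x : Nat) : (P4 b fun _ => x) = x * F4 b := by
  unfold F4 P4
  ring

theorem P4_mulr (b x : Nat) (g : Nat → Nat) : (P4 b fun i => g i * x) = P4 b g * x := by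
  unfold P4
  ring

theorem f1_eq : f1 = F4 (2 ^ 48) := by
  unfold f1
  rw [fl_eq]
  rfl

theorem f4_eq : f4 = F4 (2 ^ 192) := by
  unfold f4
  rw [fl_eq]
  rfl

theorem f16_eq : f16 = F4 (2 ^ 768) := by
  unfold f16
  rw [fl_eq]
  rfl

theorem f64_eq : f64 = F4 (2 ^ 3072) := by
  unfold f64
  rw [fl_eq]
  rfl

theorem P4_dig {g : Nat → Nat} (h : ∀ i < 4, g i < 2 ^ 48) :
    P4 (2 ^ 48) g < 2 ^ (48 * 4) ∧ ∀ i < 4, lq (P4 (2 ^ 48) g) i = g i := by
  rw [← ds_four]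
  refine ⟨ds_lt h, fun i hi => ?_⟩
  rw [lq_ds h, if_pos hi]

theorem sp63 {g : Nat → Nat} (h : ∀ i < 4, g i < 2 ^ 48) :
    sp 63 (P4 (2 ^ 48) g) = P4 (2 ^ 3072) g := by
  obtain ⟨h1, h2⟩ := P4_dig h
  rw [sp_eq (by norm_num) h1]
  exact P4_congr h2

theorem sp15 {g : Nat → Nat} (h : ∀ i < 4, g i < 2 ^ 48) :
    sp 15 (P4 (2 ^ 48) g) = P4 (2 ^ 768) g := by
  obtain ⟨h1, h2⟩ := P4_dig h
  rw [sp_eq (by norm_num) h1]
  exact P4_congr h2

theorem sp3 {g : Nat → Nat} (h : ∀ i < 4, g i < 2 ^ 47) :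
    sp 3 (P4 (2 ^ 48) g) = P4 (2 ^ 192) g := by
  obtain ⟨h1, h2⟩ := P4_dig (g := g) fun i hi => (h i hi).trans (by norm_num)
  rw [sp_three h1 fun i hi => by rw [h2 i hi]; exact h i hi]
  exact P4_congr h2

theorem P4_ite (b : Nat) (p : Prop) [Decidable p] (g : Nat → Nat) :
    (if p then P4 b g else 0) = P4 b fun j => if p then g j else 0 := by
  split_ifs
  · rfl
  · exact (P4_zero b).symm

section

variable {n : Nat} (R : Nat → Nat) (o : Nat)

theorem c_ij (hn : n ≤ 4) : Nat.mul (sumN n fun i => Nat.shiftLeft (sp 15 (sl (R i) o))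
      (Nat.mul 3072 i)) (Nat.mul f4 f1) =
    pk fun i j _ _ => if i < n then lq (R i) (o + j) else 0 := by
  rw [sumN_P4 _ _ hn]
  have e : ∀ i, sp 15 (sl (R i) o) = P4 (2 ^ 768) fun j => lq (R i) (o + j) := fun i => by
    rw [sl_P4, sp15 fun j _ => lq_lt _ _]
  simp only [e, nmul, f4_eq, f1_eq, pk, P4_ite, P4_const, P4_mulr]
  ring

theorem c_ik (hn : n ≤ 4) (hR : ∀ i j, lq (R i) j < 2 ^ 47) :
    Nat.mul (sumN n fun i => Nat.shiftLeft (sp 3 (sl (R i) o))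
      (Nat.mul 3072 i)) (Nat.mul f16 f1) =
    pk fun i _ k _ => if i < n then lq (R i) (o + k) else 0 := by
  rw [sumN_P4 _ _ hn]
  have e : ∀ i, sp 3 (sl (R i) o) = P4 (2 ^ 192) fun j => lq (R i) (o + j) := fun i => by
    rw [sl_P4, sp3 fun j _ => hR _ _]
  simp only [e, nmul, f16_eq, f1_eq, pk, P4_ite, P4_const, P4_mulr]
  ring

theorem c_il (hn : n ≤ 4) : Nat.mul (sumN n fun i => Nat.shiftLeft (sl (R i) o)
      (Nat.mul 3072 i)) (Nat.mul f16 f4) =
    pk fun i _ _ l => if i < n then lq (R i) (o + l) else 0 := by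
  rw [sumN_P4 _ _ hn]
  simp only [sl_P4, nmul, f16_eq, f4_eq, pk, P4_ite, P4_const, P4_mulr]
  ring

theorem c_jk (hn : n ≤ 4) (hR : ∀ i j, lq (R i) j < 2 ^ 47) :
    Nat.mul (sumN n fun i => Nat.shiftLeft (sp 3 (sl (R i) o))
      (Nat.mul 768 i)) (Nat.mul f64 f1) =
    pk fun _ j k _ => if j < n then lq (R j) (o + k) else 0 := by
  rw [sumN_P4 _ _ hn]
  have e : ∀ i, sp 3 (sl (R i) o) = P4 (2 ^ 192) fun j => lq (R i) (o + j) := fun i => by
    rw [sl_P4, sp3 fun j _ => hR _ _]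
  simp only [e, nmul, f64_eq, f1_eq, pk, P4_ite, P4_const, P4_mulr]
  ring

theorem c_jl (hn : n ≤ 4) : Nat.mul (sumN n fun i => Nat.shiftLeft (sl (R i) o)
      (Nat.mul 768 i)) (Nat.mul f64 f4) =
    pk fun _ j _ l => if j < n then lq (R j) (o + l) else 0 := by
  rw [sumN_P4 _ _ hn]
  simp only [sl_P4, nmul, f64_eq, f4_eq, pk, P4_ite, P4_const, P4_mulr]
  ring

theorem c_kl (hn : n ≤ 4) : Nat.mul (sumN n fun i => Nat.shiftLeft (sl (R i) o)
      (Nat.mul 192 i)) (Nat.mul f64 f16) =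
    pk fun _ _ k l => if k < n then lq (R k) (o + l) else 0 := by
  rw [sumN_P4 _ _ hn]
  simp only [sl_P4, nmul, f64_eq, f16_eq, pk, P4_ite, P4_const, P4_mulr]
  ring

end

theorem c_i (g : Nat → Nat) :
    Nat.mul (P4 (2 ^ 3072) g) (Nat.mul f16 (Nat.mul f4 f1)) = pk fun i _ _ _ => g i := by
  simp only [nmul, f16_eq, f4_eq, f1_eq, pk, P4_const, P4_mulr]
  ring

theorem c_j (g : Nat → Nat) :
    Nat.mul (P4 (2 ^ 768) g) (Nat.mul f64 (Nat.mul f4 f1)) = pk fun _ j _ _ => g j := by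
  simp only [nmul, f64_eq, f4_eq, f1_eq, pk, P4_const, P4_mulr]
  ring

theorem c_k (g : Nat → Nat) :
    Nat.mul (P4 (2 ^ 192) g) (Nat.mul f64 (Nat.mul f16 f1)) = pk fun _ _ k _ => g k := by
  simp only [nmul, f64_eq, f16_eq, f1_eq, pk, P4_const, P4_mulr]
  ring

theorem c_l (g : Nat → Nat) :
    Nat.mul (P4 (2 ^ 48) g) (Nat.mul f64 (Nat.mul f16 f4)) = pk fun _ _ _ l => g l := by
  simp only [nmul, f64_eq, f16_eq, f4_eq, pk, P4_const, P4_mulr]
  ring

theorem c_0 (x : Nat) :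
    Nat.mul x (Nat.mul (Nat.mul f64 f16) (Nat.mul f4 f1)) = pk fun _ _ _ _ => x := by
  simp only [nmul, f64_eq, f16_eq, f4_eq, f1_eq, pk, P4_const]
  ring

/-- table of a face: slot `i` -/
def tvd (T c a b d i : Nat) : Nat :=
  lq T (4 * c + i) + lq T (20 + 4 * a + i) + (lq T (36 + 4 * b + i) + lq T (52 + 4 * d + i))

theorem tv_eq (T c a b d : Nat) : tv T c a b d = P4 (2 ^ 48) (tvd T c a b d) := by
  unfold tv
  simp only [sl_P4, nadd, nmul, P4_add]
  rfl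

section

variable (S : Sd) (C : Cl)

/-- corrections of the offsets of the flags: slot `i` -/
noncomputable def Cl.kvd (g : Gp) (i : Nat) : Nat :=
  OV * (lq (ps (C.l g.a)) (g.x + i) + (lq (ps (C.l g.b)) (g.y + i) + lq (ps (C.l g.c)) (g.z + i)))

theorem kv_eq (g : Gp) : C.kv g = P4 (2 ^ 48) (C.kvd g) := by
  unfold Cl.kv
  simp only [sl_P4, nadd, nmul, P4_add]
  rw [mul_comm, P4_mul]
  refine P4_congr fun i _ => ?_
  unfold Cl.kvd
  ring

/-- entries of the blocks -/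
noncomputable def Cl.G (e i j : Nat) : Nat := lq (rw (C.l e) i) j

/-- bounds of the data -/
structure Bd : Prop where
  G : ∀ e i j, C.G e i j ≤ 2 ^ 42
  ps : ∀ e j, lq (ps (C.l e)) j ≤ 2 ^ 24
  h : ∀ e, lq C.h e ≤ 2 ^ 40
  g : ∀ e, lq C.g e ≤ 2 ^ 40
  K : C.K ≤ 2 ^ 40
  cst : C.cst ≤ 2 ^ 45
  ga : ∀ j, lq C.ga j < 2 ^ 42
  r : ∀ e j, lq (nth 0 C.r e) j < 2 ^ 42

/-- bounds of a group -/
structure Bg (g : Gp) : Prop where
  k : g.k ≤ 4
  T : ∀ j, lq (C.tb g) j < 2 ^ 42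
  n : ∀ j, lq g.n j ≤ 1
  n4 : g.n < 2 ^ (48 * 4)

variable {S C}

theorem tvd_lt {T c a b d i : Nat} (h : ∀ j, lq T j < 2 ^ 42) : tvd T c a b d i < 2 ^ 44 := by
  have h1 := h (4 * c + i)
  have h2 := h (20 + 4 * a + i)
  have h3 := h (36 + 4 * b + i)
  have h4 := h (52 + 4 * d + i)
  unfold tvd
  omega

theorem kvd_le (hB : Bd C) (g : Gp) (i : Nat) : C.kvd g i ≤ 3 * 2 ^ 41 := by
  have h1 := hB.ps g.a (g.x + i)
  have h2 := hB.ps g.b (g.y + i)
  have h3 := hB.ps g.c (g.z + i)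
  unfold Cl.kvd OV
  omega

/-- the left side at slots -/
noncomputable def lam (S : Sd) (C : Cl) (x y z w : Gp) (i j k l : Nat) : Nat :=
  ((((if i < x.k then C.G x.a (x.x + i) (y.x + j) else 0) +
      (if i < x.k then C.G x.b (x.y + i) (z.x + k) else 0)) +
      (if i < x.k then C.G x.c (x.z + i) (w.x + l) else 0)) +
    (((if j < y.k then C.G y.b (y.y + j) (z.y + k) else 0) +
      (if j < y.k then C.G y.c (y.z + j) (w.y + l) else 0)) +
      (if k < z.k then C.G z.c (z.z + k) (w.z + l) else 0))) +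
  ((tvd (C.tb x) (lb S.c2 y.b) (lb S.q1 y.b) (lb S.q1 y.c) (lb S.q1 z.c) i +
      tvd (C.tb y) (lb S.c2 x.b) (lb S.q1 x.b) (lb S.q1 x.c) (lb S.q2 z.c) j) +
    (tvd (C.tb z) (lb S.c2 x.a) (lb S.q1 x.a) (lb S.q2 x.c) (lb S.q2 y.c) k +
      tvd (C.tb w) (lb S.c1 x.a) (lb S.q2 x.a) (lb S.q2 x.b) (lb S.q2 y.b) l)) +
  sc S C x y z

/-- the right side at slots without the constant -/
noncomputable def rho (C : Cl) (x y z w : Gp) (i j k l : Nat) : Nat :=
  ((lq x.n i * (C.K + lq C.h y.b + (lq C.h y.c + lq C.h z.c)) + C.kvd x i) +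
    (lq y.n j * (C.K + lq C.h x.b + (lq C.h x.c + lq C.g z.c)) + C.kvd y j)) +
  ((lq z.n k * (C.K + lq C.h x.a + (lq C.g x.c + lq C.g y.c)) + C.kvd z k) +
    (lq w.n l * (C.K + lq C.g x.a + (lq C.g x.b + lq C.g y.b)) + C.kvd w l))

theorem lv_eq (hB : Bd C) {x y z w : Gp} (hx : x.k ≤ 4) (hy : y.k ≤ 4) (hz : z.k ≤ 4) :
    C.lv x y z w = pk fun i j k l =>
      (((if i < x.k then C.G x.a (x.x + i) (y.x + j) else 0) +
        (if i < x.k then C.G x.b (x.y + i) (z.x + k) else 0)) +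
        (if i < x.k then C.G x.c (x.z + i) (w.x + l) else 0)) +
      (((if j < y.k then C.G y.b (y.y + j) (z.y + k) else 0) +
        (if j < y.k then C.G y.c (y.z + j) (w.y + l) else 0)) +
        (if k < z.k then C.G z.c (z.z + k) (w.z + l) else 0)) := by
  have hG : ∀ e i j, lq (rw (C.l e) i) j < 2 ^ 47 := fun e i j =>
    lt_of_le_of_lt (hB.G e i j) (by norm_num)
  unfold Cl.lv
  rw [c_ij (fun i => rw (C.l x.a) (Nat.add x.x i)) y.x hx,
    c_ik (fun i => rw (C.l x.b) (Nat.add x.y i)) z.x hx (fun i j => hG _ _ _),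
    c_il (fun i => rw (C.l x.c) (Nat.add x.z i)) w.x hx,
    c_jk (fun i => rw (C.l y.b) (Nat.add y.y i)) z.y hy (fun i j => hG _ _ _),
    c_jl (fun i => rw (C.l y.c) (Nat.add y.z i)) w.y hy,
    c_kl (fun i => rw (C.l z.c) (Nat.add z.z i)) w.z hz]
  simp only [nadd, pk_add]
  rfl

theorem lt_eq {x y z w : Gp} (hx : Bg C x) (hy : Bg C y) (hz : Bg C z) :
    lt S C x y z w = pk fun i j k l =>
      (tvd (C.tb x) (lb S.c2 y.b) (lb S.q1 y.b) (lb S.q1 y.c) (lb S.q1 z.c) i +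
        tvd (C.tb y) (lb S.c2 x.b) (lb S.q1 x.b) (lb S.q1 x.c) (lb S.q2 z.c) j) +
      (tvd (C.tb z) (lb S.c2 x.a) (lb S.q1 x.a) (lb S.q2 x.c) (lb S.q2 y.c) k +
        tvd (C.tb w) (lb S.c1 x.a) (lb S.q2 x.a) (lb S.q2 x.b) (lb S.q2 y.b) l) := by
  unfold lt
  rw [tv_eq, tv_eq, tv_eq, tv_eq, sp63 fun i _ => (tvd_lt hx.T).trans (by norm_num),
    sp15 fun i _ => (tvd_lt hy.T).trans (by norm_num),
    sp3 fun i _ => (tvd_lt hz.T).trans (by norm_num), c_i, c_j, c_k, c_l]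
  simp only [nadd, pk_add]

theorem n_eq {g : Gp} (h : Bg C g) : g.n = P4 (2 ^ 48) (lq g.n) := by
  conv_lhs => rw [eq_ds h.n4, ds_four]

theorem rv_eq (hB : Bd C) {x y z w : Gp} (hx : Bg C x) (hy : Bg C y) (hz : Bg C z) (hw : Bg C w) :
    rv C x y z w = pk fun i j k l => rho C x y z w i j k l := by
  have e : ∀ (b s : Nat) (g : Nat → Nat) (g' : Nat → Nat), P4 b g * s + P4 b g' =
      P4 b fun i => g i * s + g' i := fun b s g g' => by
    unfold P4
    ring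
  unfold rv
  rw [kv_eq, kv_eq, kv_eq, kv_eq,
    sp63 (g := C.kvd x) fun i _ => lt_of_le_of_lt (kvd_le hB x i) (by norm_num),
    sp15 (g := C.kvd y) fun i _ => lt_of_le_of_lt (kvd_le hB y i) (by norm_num),
    sp3 (g := C.kvd z) fun i _ => lt_of_le_of_lt (kvd_le hB z i) (by norm_num)]
  rw [show sp 63 x.n = P4 (2 ^ 3072) (lq x.n) by
      conv_lhs => rw [n_eq hx]
      exact sp63 fun i _ => lq_lt _ _,
    show sp 15 y.n = P4 (2 ^ 768) (lq y.n) by
      conv_lhs => rw [n_eq hy]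
      exact sp15 fun i _ => lq_lt _ _,
    show sp 3 z.n = P4 (2 ^ 192) (lq z.n) by
      conv_lhs => rw [n_eq hz]
      exact sp3 fun i _ => lt_of_le_of_lt (hz.n i) (by norm_num)]
  rw [show Nat.mul w.n = Nat.mul (P4 (2 ^ 48) (lq w.n)) by rw [← n_eq hw]]
  simp only [nadd, nmul, e]
  have c1 := c_i fun i => lq x.n i * (C.K + lq C.h y.b + (lq C.h y.c + lq C.h z.c)) + C.kvd x i
  have c2 := c_j fun j => lq y.n j * (C.K + lq C.h x.b + (lq C.h x.c + lq C.g z.c)) + C.kvd y j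
  have c3 := c_k fun k => lq z.n k * (C.K + lq C.h x.a + (lq C.g x.c + lq C.g y.c)) + C.kvd z k
  have c4 := c_l fun l => lq w.n l * (C.K + lq C.g x.a + (lq C.g x.b + lq C.g y.b)) + C.kvd w l
  simp only [nmul] at c1 c2 c3 c4
  rw [c1, c2, c3, c4]
  simp only [pk_add]
  rfl

theorem lam_lt (hB : Bd C) {x y z w : Gp} (hx : Bg C x) (hy : Bg C y) (hz : Bg C z) (hw : Bg C w)
    (i j k l : Nat) : lam S C x y z w i j k l < 2 ^ 47 := by
  have g : ∀ (p : Prop) [Decidable p] (e i j : Nat), (if p then C.G e i j else 0) ≤ 2 ^ 42 := by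
    intro p _ e i j
    split_ifs
    · exact hB.G e i j
    · norm_num
  have t : ∀ {T c a b d i : Nat}, (∀ j, lq T j < 2 ^ 42) → tvd T c a b d i < 2 ^ 44 :=
    fun h => tvd_lt h
  have s : sc S C x y z < 2 ^ 44 := by
    unfold sc
    simp only [nadd]
    have h1 := hB.ga (gi (lb S.c1 x.a) (lb S.c2 x.a) (lb S.c2 x.b) (lb S.c2 y.b))
    have h2 := hB.r x.a z.c
    have h3 := hB.r x.b y.c
    have h4 := hB.r y.b x.c
    omega
  unfold lam
  have t1 := t (c := lb S.c2 y.b) (a := lb S.q1 y.b) (b := lb S.q1 y.c) (d := lb S.q1 z.c)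
    (i := i) hx.T
  have t2 := t (c := lb S.c2 x.b) (a := lb S.q1 x.b) (b := lb S.q1 x.c) (d := lb S.q2 z.c)
    (i := j) hy.T
  have t3 := t (c := lb S.c2 x.a) (a := lb S.q1 x.a) (b := lb S.q2 x.c) (d := lb S.q2 y.c)
    (i := k) hz.T
  have t4 := t (c := lb S.c1 x.a) (a := lb S.q2 x.a) (b := lb S.q2 x.b) (d := lb S.q2 y.b)
    (i := l) hw.T
  have g1 := g (i < x.k) x.a (x.x + i) (y.x + j)
  have g2 := g (i < x.k) x.b (x.y + i) (z.x + k)
  have g3 := g (i < x.k) x.c (x.z + i) (w.x + l)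
  have g4 := g (j < y.k) y.b (y.y + j) (z.y + k)
  have g5 := g (j < y.k) y.c (y.z + j) (w.y + l)
  have g6 := g (k < z.k) z.c (z.z + k) (w.z + l)
  omega

theorem rho_lt (hB : Bd C) {x y z w : Gp} (hx : Bg C x) (hy : Bg C y) (hz : Bg C z) (hw : Bg C w)
    (i j k l : Nat) : rho C x y z w i j k l < 2 ^ 46 := by
  have m : ∀ a b : Nat, a ≤ 1 → a * b ≤ b := fun a b h => by nlinarith
  have hK := hB.K
  have n1 := m _ (C.K + lq C.h y.b + (lq C.h y.c + lq C.h z.c)) (hx.n i)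
  have n2 := m _ (C.K + lq C.h x.b + (lq C.h x.c + lq C.g z.c)) (hy.n j)
  have n3 := m _ (C.K + lq C.h x.a + (lq C.g x.c + lq C.g y.c)) (hz.n k)
  have n4 := m _ (C.K + lq C.g x.a + (lq C.g x.b + lq C.g y.b)) (hw.n l)
  have k1 := kvd_le hB x i
  have k2 := kvd_le hB y j
  have k3 := kvd_le hB z k
  have k4 := kvd_le hB w l
  have a1 := hB.h y.b
  have a2 := hB.h y.c
  have a3 := hB.h z.c
  have a4 := hB.h x.b
  have a5 := hB.h x.c
  have a6 := hB.g z.c
  have a7 := hB.h x.a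
  have a8 := hB.g x.c
  have a9 := hB.g y.c
  have b1 := hB.g x.a
  have b2 := hB.g x.b
  have b3 := hB.g y.b
  unfold rho
  omega

/-- **Soundness of the check at four groups.** -/
theorem chkS_sound (hB : Bd C) {x y z w : Gp} (hx : Bg C x) (hy : Bg C y) (hz : Bg C z)
    (hw : Bg C w) {m : Nat} (h : chkS S C m x y z w = true) {i j k l : Nat} (hi : i < 4)
    (hj : j < 4) (hk : k < 4) (hl : l < 4)
    (hm : m.testBit (3072 * i + (768 * j + (192 * k + (48 * l + 47)))) = true) :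
    lam S C x y z w i j k l ≤ C.cst + rho C x y z w i j k l := by
  unfold chkS at h
  have h1 := Nat.eq_of_beq_eq_true h
  simp only [nadd, nsub, nland] at h1
  have e1 : Nat.mul (C.cst + 140737488355328) (Nat.mul (Nat.mul f64 f16) (Nat.mul f4 f1)) =
      pk fun _ _ _ _ => C.cst + 2 ^ 47 := c_0 _
  have e2 : Nat.mul (sc S C x y z) (Nat.mul (Nat.mul f64 f16) (Nat.mul f4 f1)) =
      pk fun _ _ _ _ => sc S C x y z := c_0 _
  rw [e1, e2, rv_eq hB hx hy hz hw, lv_eq hB hx.k hy.k hz.k, lt_eq hx hy hz] at h1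
  simp only [pk_add] at h1
  have e3 : (pk fun i j k l => rho C x y z w i j k l + (C.cst + 2 ^ 47)) =
      (pk fun i j k l => lam S C x y z w i j k l) +
      pk fun i j k l => rho C x y z w i j k l + (C.cst + 2 ^ 47) - lam S C x y z w i j k l := by
    rw [pk_add]
    refine pk_congr fun i _ j _ k _ l _ => ?_
    have := lam_lt (S := S) hB hx hy hz hw i j k l
    omega
  have e4 : (pk fun i j k l => rho C x y z w i j k l + (C.cst + 2 ^ 47)) -
      (pk fun i j k l => lam S C x y z w i j k l) =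
      pk fun i j k l => rho C x y z w i j k l + (C.cst + 2 ^ 47) - lam S C x y z w i j k l := by
    rw [e3]
    exact Nat.add_sub_cancel_left _ _
  have h2 : ((pk fun i j k l => rho C x y z w i j k l + (C.cst + 2 ^ 47) -
      lam S C x y z w i j k l) &&& m) = m := by
    rw [← e4]
    exact h1
  have hb : ∀ i < 4, ∀ j < 4, ∀ k < 4, ∀ l < 4,
      rho C x y z w i j k l + (C.cst + 2 ^ 47) - lam S C x y z w i j k l < 2 ^ 48 := by
    intro i _ j _ k _ l _
    have h3 := rho_lt hB hx hy hz hw i j k l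
    have h4 := hB.cst
    omega
  rw [← h2, Nat.testBit_and, pk_bit hb hi hj hk hl (by norm_num)] at hm
  have h5 := (Bool.and_eq_true _ _ ▸ hm).1
  have h6 : 2 ^ 47 ≤ rho C x y z w i j k l + (C.cst + 2 ^ 47) - lam S C x y z w i j k l :=
    Nat.ge_two_pow_of_testBit h5
  omega

end

end Pool.Agent.AKY
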